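import Pool.Agent.Q197.ML.Bud

/-!
# Project ML, module BudL: the exact entropy budget of the law of the rank
-/

set_option autoImplicit false

open MeasureTheory ProbabilityTheory Filter Asymptotics InformationTheory
open scoped ENNReal Topology

namespace Pool.Agent.Q197.ML

noncomputable section

/-- deviations of averages of a bounded function -/
theorem dev_bdd {ν : Measure ℕ} [IsProbabilityMeasure ν] {f : ℕ → ℝ} (hf0 : ∀ r, 0 ≤ f r) (hf1 : ∀ r, f r ≤ 1)
    {ε : ℝ} (hε : 0 < ε) : ∃ c : ℝ, 0 < c ∧ ∀ᶠ N : ℕ in atTop,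
      (Measure.pi fun _ : Fin N => ν).real (Dv f (∫ r, f r ∂ν) N ε) ≤ Real.exp (-(c * N)) := by
  set T : ℝ := max 1 (2 / ε) with hT
  have hT1 : 1 ≤ T := le_max_left _ _
  have hT0 : 0 < T := by linarith
  set l : ℝ := min (1 / T) (ε / 4) with hl
  have hl0 : 0 < l := lt_min (by positivity) (by positivity)
  refine ⟨l * ε / 8, by positivity, ?_⟩
  have hlin : ∀ᶠ N : ℕ in atTop, 2 * ((N : ℝ) + 1) ≤ Real.exp (l * ε / 8 * N) := by
    have h1 := tendsto_natCast_atTop_atTop.eventually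
      (pow_le_exp (k := 1) (δ := l * ε / 8) (c := 1 / 4) (by positivity) (by norm_num))
    filter_upwards [h1, eventually_ge_atTop 1] with N h2 hN
    have hN1 : (1 : ℝ) ≤ N := by exact_mod_cast hN
    rw [pow_one] at h2
    linarith
  filter_upwards [hlin] with N hN
  have hi : Integrable f ν := nat_int (T := 1) fun r => by rw [abs_of_nonneg (hf0 r)]; exact hf1 r
  have hi2 : Integrable (fun r => f r ^ 2) ν := nat_int (T := 1) fun r => by
    rw [abs_of_nonneg (sq_nonneg _)]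
    exact pow_le_one₀ (hf0 r) (hf1 r)
  have hV : ∫ r, f r ^ 2 ∂ν ≤ 1 := by
    calc ∫ r, f r ^ 2 ∂ν ≤ ∫ _r, (1 : ℝ) ∂ν :=
          integral_mono hi2 (integrable_const _) fun r => pow_le_one₀ (hf0 r) (hf1 r)
      _ = 1 := by simp
  have hVT : 1 / T ≤ ε / 2 := by
    rw [div_le_iff₀ hT0]
    have : 2 / ε ≤ T := le_max_right _ _
    rw [div_le_iff₀ hε] at this
    linarith
  have hlT : l * T ≤ 1 := by
    calc l * T ≤ 1 / T * T := mul_le_mul_of_nonneg_right (min_le_left _ _) hT0.le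
      _ = 1 := by rw [one_div, inv_mul_cancel₀ hT0.ne']
  have main := dev_le (ν := ν) (m := ∫ r, f r ∂ν) (V := 1) hf0 hi rfl hi2 hV hT0 hVT hl0.le hlT N
  have hempty : {r : ℕ | T < f r} = ∅ := by
    ext r
    simp only [Set.mem_setOf_eq, Set.mem_empty_iff_false, iff_false, not_lt]
    exact (hf1 r).trans hT1
  rw [hempty, measureReal_empty, mul_zero, zero_add] at main
  refine main.trans ?_
  have h3 : (N : ℝ) * (l ^ 2 * 1) - l * (ε * N / 2) ≤ -(l * ε / 4 * N) := by
    have h4 : l ≤ ε / 4 := min_le_right _ _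
    have h5 : l ^ 2 ≤ l * (ε / 4) := by rw [sq]; exact mul_le_mul_of_nonneg_left h4 hl0.le
    have h6 : (N : ℝ) * l ^ 2 ≤ N * (l * (ε / 4)) := mul_le_mul_of_nonneg_left h5 (Nat.cast_nonneg _)
    linarith
  calc 2 * ((N : ℝ) + 1) * Real.exp (N * (l ^ 2 * 1) - l * (ε * N / 2))
      ≤ Real.exp (l * ε / 8 * N) * Real.exp (-(l * ε / 4 * N)) :=
        mul_le_mul hN (Real.exp_le_exp.2 h3) (Real.exp_pos _).le (Real.exp_pos _).le
    _ = Real.exp (-(l * ε / 8 * N)) := by
        rw [← Real.exp_add]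
        congr 1
        ring

variable {p : ℕ} (hp : 2 ≤ p)

/-- the indicator of the rank `j` -/
def ind (j x : ℕ) : ℝ := if x = j then 1 else 0

theorem ind_nonneg (j x : ℕ) : 0 ≤ ind j x := by unfold ind; split_ifs <;> norm_num

theorem ind_le (j x : ℕ) : ind j x ≤ 1 := by unfold ind; split_ifs <;> norm_num

theorem ind_mean (ν : Measure ℕ) (j : ℕ) : ∫ r, ind j r ∂ν = ν.real {j} := by
  have e : ind j = ({j} : Set ℕ).indicator (fun _ => (1 : ℝ)) := by
    funext x
    unfold ind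
    by_cases h : x = j
    · simp [h]
    · simp [h]
  rw [e, integral_indicator MeasurableSet.of_discrete, setIntegral_const, smul_eq_mul, mul_one]

include hp in
/-- **the law of the rank for summable budgets** -/
theorem law_of_summable {d : ℕ → ℝ} (hd : ∀ k, 0 ≤ d k) (hs : Summable fun k : ℕ => d k / (2 : ℝ) ^ k)
    {Ω : Type} [MeasurableSpace Ω] {μ : Measure Ω} [IsProbabilityMeasure μ] {r : ℕ → Ω → ℕ}
    (hr : ∀ n, Measurable (r n)) (hD : ∀ᶠ k in atTop, relEnt p μ r k ≤ ENNReal.ofReal (d k)) :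
    ∀ᵐ ω ∂μ, ∀ j : ℕ, Tendsto (fun N => mean (ind j) (fun n => r n ω) N) atTop (𝓝 ((clLaw p).real {j})) := by
  have hcl := clLaw_prob hp
  rw [ae_all_iff]
  intro j
  have key : ∀ᵐ ω ∂μ, ∀ e : ℕ, ∀ᶠ k in atTop,
      block r k ω ∉ Dv (ind j) ((clLaw p).real {j}) (2 ^ k) (1 / ((e : ℝ) + 1)) := by
    rw [ae_all_iff]
    intro e
    obtain ⟨c, hc, h1⟩ := dev_bdd (ν := clLaw p) (ind_nonneg j) (ind_le j) (ε := 1 / ((e : ℝ) + 1)) (by positivity)
    rw [ind_mean] at h1
    have h2 := (tendsto_pow_atTop_atTop_of_one_lt (by norm_num : 1 < 2)).eventually h1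
    refine ae_good hp hr hd hD (fun k => Dv (ind j) ((clLaw p).real {j}) (2 ^ k) (1 / ((e : ℝ) + 1)))
      (u := fun k => c * ((2 ^ k : ℕ) : ℝ)) ?_ ?_
    · filter_upwards [h2] with k hk
      exact ⟨by positivity, hk⟩
    · have h4 : Summable fun k : ℕ => 1 / (2 : ℝ) ^ k := by
        have := summable_geometric_of_lt_one (by norm_num : (0 : ℝ) ≤ 1 / 2) (by norm_num)
        refine this.congr fun k => ?_
        rw [one_div_pow]
      refine ((hs.add h4).mul_left (1 / c)).congr fun k => ?_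
      push_cast
      field_simp
  filter_upwards [key] with ω hω
  exact mean_tendsto r _ _ ω hω

/-- all ranks of the block are `0` -/
def zeros (k : ℕ) : Set (Fin (2 ^ k) → ℕ) := {x | ∀ i, x i = 0}

include hp in
theorem zeros_real (k : ℕ) : (model p (2 ^ k)).real (zeros k) = (clLaw p).real {0} ^ (2 ^ k) := by
  have := clLaw_prob hp
  have e : zeros k = Set.pi Set.univ fun _ => ({0} : Set ℕ) := by
    ext x
    simp [zeros]
  rw [e, model, measureReal_def, Measure.pi_pi, Finset.prod_const, Finset.card_univ, Fintype.card_fin,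
    ENNReal.toReal_pow]
  rfl

include hp in
theorem cl_zero : 0 < (clLaw p).real {0} ∧ (clLaw p).real {0} < 1 := by
  have := clLaw_prob hp
  have h0 := (Real.exp_pos _).trans_le (cl_atom hp 0)
  have h1 := (Real.exp_pos _).trans_le (cl_atom hp 1)
  refine ⟨h0, ?_⟩
  have hd : Disjoint ({0} : Set ℕ) {1} := by simp
  have h2 := measureReal_union (μ := clLaw p) hd (MeasurableSet.of_discrete : MeasurableSet ({1} : Set ℕ))
  have h3 : (clLaw p).real ({0} ∪ {1}) ≤ 1 := measureReal_le_one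
  linarith

include hp in
/-- **the law of the rank fails for budgets which are not summable** -/
theorem law_of_not_summable {d : ℕ → ℝ} (hd : ∀ k, 0 ≤ d k) (hs : ¬ Summable fun k : ℕ => d k / (2 : ℝ) ^ k) :
    ∃ (Ω : Type) (_ : MeasurableSpace Ω) (μ : Measure Ω) (_ : IsProbabilityMeasure μ) (r : ℕ → Ω → ℕ),
      (∀ n, Measurable (r n)) ∧ (∀ k, relEnt p μ r k ≤ ENNReal.ofReal (d k)) ∧
      ∀ᵐ ω ∂μ, ¬ Tendsto (fun N => mean (ind 0) (fun n => r n ω) N) atTop (𝓝 ((clLaw p).real {0})) := by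
  have hcl := clLaw_prob hp
  obtain ⟨hz0, hz1⟩ := cl_zero hp
  set z := (clLaw p).real {0} with hz
  set C : ℝ := Real.log (1 / z) with hC
  have hC0 : 0 < C := Real.log_pos (by rw [lt_div_iff₀ hz0]; linarith)
  set q : ℕ → ℝ := fun k => min 1 (d k / (2 : ℝ) ^ k / C) with hq
  have hq0 : ∀ k, 0 ≤ q k := fun k => le_min zero_le_one (div_nonneg (div_nonneg (hd k) (by positivity)) hC0.le)
  have hq1 : ∀ k, q k ≤ 1 := fun k => min_le_left _ _
  have hpos : ∀ k, 0 < (model p (2 ^ k)).real (zeros k) := fun k => by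
    rw [zeros_real hp]
    exact pow_pos hz0 _
  have hmp : ∀ N, IsProbabilityMeasure (model p N) := model_prob hp
  set ρ : ∀ k : ℕ, Measure (Fin (2 ^ k) → ℕ) := fun k => mix (model p (2 ^ k)) (zeros k) (q k) with hρd
  have hρ : ∀ k, IsProbabilityMeasure (ρ k) := fun k => mix_prob _ (meas _) (hpos k) (hq0 k) (hq1 k)
  have hns : ¬ Summable fun k => (ρ k).real (zeros k) := by
    intro h
    have h1 : ¬ Summable q := by
      refine min_not_summable (fun k => div_nonneg (div_nonneg (hd k) (by positivity)) hC0.le) fun h2 => hs ?_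
      refine (h2.mul_left C).congr fun k => ?_
      field_simp
    exact h1 (Summable.of_nonneg_of_le hq0
      (fun k => mix_ge _ (meas _) (hpos k) (hq0 k) (hq1 k) (meas _) le_rfl) h)
  obtain ⟨Ω, mΩ, μ, hμ, r, hr, hmap, hae⟩ := blocks ρ hρ (fun k => zeros k) hns
  refine ⟨Ω, mΩ, μ, hμ, r, hr, fun k => ?_, ?_⟩
  · unfold relEnt
    rw [hmap k]
    refine (mix_kl _ (meas _) (hpos k) (hq0 k) (hq1 k)).trans (ENNReal.ofReal_le_ofReal ?_)
    rw [zeros_real hp, ← hz]
    have e1 : Real.log (1 / z ^ 2 ^ k) = 2 ^ k * C := by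
      rw [hC, one_div, one_div, Real.log_inv, Real.log_inv, Real.log_pow]
      push_cast
      ring
    rw [e1]
    calc q k * (2 ^ k * C) ≤ d k / (2 : ℝ) ^ k / C * (2 ^ k * C) :=
          mul_le_mul_of_nonneg_right (min_le_right _ _) (by positivity)
      _ = d k := by field_simp
  · filter_upwards [hae] with ω hω hT
    set x : ℕ → ℕ := fun n => r n ω with hx
    set F : ℕ → ℝ := fun N => mean (ind 0) x N with hF
    have t1 : Tendsto (fun k : ℕ => 2 ^ k - 1) atTop atTop := by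
      refine tendsto_atTop_mono (fun k => ?_) (tendsto_id (α := ℕ) |>.comp tendsto_id)
      have : k < 2 ^ k := Nat.lt_two_pow_self
      simp only [Function.comp, id]
      omega
    have t2 : Tendsto (fun k : ℕ => F (2 ^ k - 1)) atTop (𝓝 z) := hT.comp t1
    have t3 : Tendsto (fun k : ℕ => F (2 ^ (k + 1) - 1)) atTop (𝓝 z) := t2.comp (tendsto_add_atTop_nat 1)
    have t4 : Tendsto (fun k : ℕ => 1 / (2 : ℝ) ^ k) atTop (𝓝 0) := by
      have := tendsto_pow_atTop_nhds_zero_of_lt_one (by norm_num : (0 : ℝ) ≤ 1 / 2) (by norm_num)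
      refine this.congr fun k => ?_
      rw [one_div_pow]
    have t5 : Tendsto (fun k : ℕ => F (2 ^ (k + 1) - 1) * (2 - 1 / (2 : ℝ) ^ k) - F (2 ^ k - 1) * (1 - 1 / (2 : ℝ) ^ k) - 1)
        atTop (𝓝 (z * (2 - 0) - z * (1 - 0) - 1)) :=
      ((t3.mul (tendsto_const_nhds.sub t4)).sub (t2.mul (tendsto_const_nhds.sub t4))).sub tendsto_const_nhds
    have hne : z * (2 - 0) - z * (1 - 0) - 1 ≠ 0 := by
      intro h
      linarith
    have hev := t5.eventually_ne hne
    obtain ⟨k, h1, h2, h3⟩ := (hω.and_eventually (hev.and (eventually_ge_atTop 1))).exists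
    apply h2
    have hz' : ∀ i < 2 ^ k, x (2 ^ k + i) = 0 := fun i hi => h1 ⟨i, hi⟩
    have hsum : ∀ N : ℕ, 1 ≤ N → F (2 ^ N - 1) * ((2 : ℝ) ^ N - 1) = ∑ n ∈ Finset.Icc 1 (2 ^ N - 1), ind 0 (x n) := by
      intro N hN
      have h4 : 1 < 2 ^ N := Nat.one_lt_two_pow (by omega)
      have h5 : ((2 ^ N - 1 : ℕ) : ℝ) = (2 : ℝ) ^ N - 1 := by
        rw [Nat.cast_sub h4.le]
        push_cast
        ring
      have h6 : (2 : ℝ) ^ N - 1 ≠ 0 := by
        rw [← h5]
        have : 0 < 2 ^ N - 1 := by omega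
        positivity
      simp only [hF, mean, h5]
      field_simp
    have e1 := hsum k h3
    have e2 := hsum (k + 1) (by omega)
    have hIcc : ∀ N : ℕ, Finset.Icc 1 (2 ^ N - 1) = Finset.Ico 1 (2 ^ N) := fun N => by
      ext n
      have := Nat.one_le_two_pow (n := N)
      simp only [Finset.mem_Icc, Finset.mem_Ico]
      omega
    have e3 : ∑ n ∈ Finset.Icc 1 (2 ^ (k + 1) - 1), ind 0 (x n) =
        ∑ n ∈ Finset.Icc 1 (2 ^ k - 1), ind 0 (x n) + 2 ^ k := by
      rw [hIcc, hIcc]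
      have h7 := sm_add (fun n => ind 0 (x n)) (M := 2 ^ k) Nat.one_le_two_pow (2 ^ k)
      unfold sm at h7
      rw [← two_mul, ← pow_succ'] at h7
      rw [h7]
      congr 1
      rw [Finset.sum_congr rfl (g := fun _ => (1 : ℝ)) fun i hi => ?_, Finset.sum_const, Finset.card_range, nsmul_eq_mul,
        mul_one]
      · push_cast
        ring
      · rw [hz' i (Finset.mem_range.1 hi)]
        simp [ind]
    rw [← e1, ← e2] at e3
    have h8 : (0 : ℝ) < 2 ^ k := by positivity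
    have e4 : F (2 ^ (k + 1) - 1) * (2 - 1 / (2 : ℝ) ^ k) - F (2 ^ k - 1) * (1 - 1 / (2 : ℝ) ^ k) - 1 =
        (F (2 ^ (k + 1) - 1) * ((2 : ℝ) ^ (k + 1) - 1) - (F (2 ^ k - 1) * ((2 : ℝ) ^ k - 1) + 2 ^ k)) / 2 ^ k := by
      rw [pow_succ]
      field_simp
      ring
    rw [e4, e3]
    simp

end

end Pool.Agent.Q197.ML
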