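import Mathlib

/-!
# Project ML, module Cl: the Cohen-Lenstra law of the `p`-rank and its moments

`clLaw p` is the law on `ℕ` with `P(r)` proportional to `p ^ (-r²) ∏_{i ≤ r} (1 - p ^ (-i)) ^ (-2)`, the law of the
`p`-rank of a finite abelian `p`-group chosen with probability proportional to `1 / #Aut`.  `sur p s r` is the number of
surjective homomorphisms from a group of `p`-rank `r` onto `(ℤ/p)^s`.  Its mean value is one, its square is integrable.
-/

set_option autoImplicit false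

open MeasureTheory Filter
open scoped ENNReal Topology

namespace Pool.Agent.Q197.ML

noncomputable section

/-- the weight of the rank `r` -/
def clWeight (p r : ℕ) : ℝ := 1 / ((p : ℝ) ^ (r ^ 2) * (∏ i ∈ Finset.range r, (1 - 1 / (p : ℝ) ^ (i + 1))) ^ 2)

/-- the law on `ℕ` with the weights `w` -/
def law (w : ℕ → ℝ) : Measure ℕ := Measure.sum fun r => ENNReal.ofReal (w r) • Measure.dirac r

/-- the Cohen-Lenstra law of the `p`-rank -/
def clLaw (p : ℕ) : Measure ℕ := law fun r => clWeight p r / ∑' i, clWeight p i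

/-- the number of surjective homomorphisms from a group of `p`-rank `r` onto `(ℤ/p)^s` -/
def sur (p s r : ℕ) : ℕ := ∏ i ∈ Finset.range s, (p ^ r - p ^ i)

/-- `(1 - q)(1 - q ^ 2) ⋯ (1 - q ^ n)` -/
def qp (q : ℝ) (n : ℕ) : ℝ := ∏ i ∈ Finset.range n, (1 - q ^ (i + 1))

/-- the terms of the sums -/
def tt (q : ℝ) (s j : ℕ) : ℝ := q ^ (j * (j + s)) / (qp q j * qp q (j + s))

section

variable {q : ℝ} (hq0 : 0 < q) (hq : q ≤ 1 / 2)

theorem qp_succ (q : ℝ) (n : ℕ) : qp q (n + 1) = qp q n * (1 - q ^ (n + 1)) := Finset.prod_range_succ _ _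

include hq0 hq in
theorem qp_ge (n : ℕ) : (1 + 2 * q ^ n) / 4 ≤ qp q n := by
  induction n with
  | zero => simp [qp]; norm_num
  | succ n ih =>
    rcases Nat.eq_zero_or_pos n with rfl | hn
    · simp [qp]; linarith
    · rw [qp_succ]
      have hx : q ^ n ≤ 1 / 2 := by
        calc q ^ n ≤ q ^ 1 := pow_le_pow_of_le_one hq0.le (by linarith) hn
          _ ≤ 1 / 2 := by rw [pow_one]; exact hq
      have hx0 : 0 < q ^ n := pow_pos hq0 n
      have h1 : q ^ (n + 1) = q * q ^ n := by ring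
      have h2 : 0 ≤ 1 - q ^ (n + 1) := by rw [h1]; nlinarith
      calc (1 + 2 * q ^ (n + 1)) / 4 ≤ (1 + 2 * q ^ n) / 4 * (1 - q ^ (n + 1)) := by
            rw [h1]
            set x := q ^ n
            have h3 : 0 ≤ x * (2 - 3 * q - 2 * (q * x)) := by
              refine mul_nonneg hx0.le ?_
              have : q * x ≤ 1 / 2 * (1 / 2) := mul_le_mul hq hx hx0.le (by norm_num)
              linarith
            nlinarith
        _ ≤ _ := mul_le_mul_of_nonneg_right ih h2

include hq0 hq in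
theorem qp_ge' (n : ℕ) : 1 / 4 ≤ qp q n := by
  have := qp_ge hq0 hq n
  have := pow_pos hq0 n
  linarith

include hq0 hq in
theorem qp_pos (n : ℕ) : 0 < qp q n := lt_of_lt_of_le (by norm_num) (qp_ge' hq0 hq n)

include hq0 hq in
theorem qp_le (n : ℕ) : qp q n ≤ 1 := by
  refine Finset.prod_le_one (fun i _ => ?_) fun i _ => ?_
  · have : q ^ (i + 1) ≤ 1 := pow_le_one₀ hq0.le (by linarith)
    linarith
  · have := pow_pos hq0 (i + 1)
    linarith

include hq0 hq in
theorem tt_pos (s j : ℕ) : 0 < tt q s j := div_pos (pow_pos hq0 _) (mul_pos (qp_pos hq0 hq _) (qp_pos hq0 hq _))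

include hq0 hq in
theorem tt_le (s j : ℕ) : tt q s j ≤ 16 * q ^ (j * (j + s)) := by
  unfold tt
  rw [div_le_iff₀ (mul_pos (qp_pos hq0 hq _) (qp_pos hq0 hq _))]
  have h1 := qp_ge' hq0 hq j
  have h2 := qp_ge' hq0 hq (j + s)
  have h3 : 1 / 4 * (1 / 4) ≤ qp q j * qp q (j + s) := mul_le_mul h1 h2 (by norm_num) (qp_pos hq0 hq _).le
  have h4 := pow_pos hq0 (j * (j + s))
  nlinarith

include hq0 hq in
theorem tt_le' (s j : ℕ) : tt q s j ≤ 16 * q ^ j := by
  refine (tt_le hq0 hq s j).trans (mul_le_mul_of_nonneg_left ?_ (by norm_num))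
  rcases Nat.eq_zero_or_pos j with rfl | hj
  · simp
  · exact pow_le_pow_of_le_one hq0.le (by linarith) (Nat.le_mul_of_pos_right j (by omega))

include hq0 hq in
theorem tt_summable (s : ℕ) : Summable (tt q s) :=
  Summable.of_nonneg_of_le (fun j => (tt_pos hq0 hq s j).le) (tt_le' hq0 hq s)
    ((summable_geometric_of_lt_one hq0.le (by linarith)).mul_left 16)

include hq0 hq in
/-- telescoping -/
theorem tt_tel (s n : ℕ) : ∑ j ∈ Finset.range (n + 1), (tt q s j - tt q (s + 1) j) =
    -(q ^ (n + s + 1) * tt q (s + 1) n) := by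
  induction n with
  | zero =>
    rw [zero_add, Finset.sum_range_one]
    unfold tt
    have h1 := (qp_pos hq0 hq s).ne'
    have e : qp q (s + 1) = qp q s * (1 - q ^ (s + 1)) := qp_succ q s
    have h2 : (1 - q ^ (s + 1)) ≠ 0 := by
      intro h
      rw [h, mul_zero] at e
      exact (qp_pos hq0 hq (s + 1)).ne' e
    simp only [zero_add, zero_mul, pow_zero, e]
    have h0 : qp q 0 = 1 := by simp [qp]
    rw [h0]
    field_simp
    ring
  | succ n ih =>
    rw [Finset.sum_range_succ, ih]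
    unfold tt
    have h1 := (qp_pos hq0 hq n).ne'
    have h2 := (qp_pos hq0 hq (n + 1 + s)).ne'
    have e1 : qp q (n + 1) = qp q n * (1 - q ^ (n + 1)) := qp_succ q n
    have e2 : qp q (n + 1 + (s + 1)) = qp q (n + 1 + s) * (1 - q ^ (n + 1 + s + 1)) := by
      have := qp_succ q (n + 1 + s)
      rwa [show n + 1 + s + 1 = n + 1 + (s + 1) by ring] at this ⊢
    have e3 : qp q (n + (s + 1)) = qp q (n + 1 + s) := by rw [show n + (s + 1) = n + 1 + s by ring]
    have h3 : (1 - q ^ (n + 1)) ≠ 0 := by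
      intro h
      rw [h, mul_zero] at e1
      exact (qp_pos hq0 hq (n + 1)).ne' e1
    have h4 : (1 - q ^ (n + 1 + s + 1)) ≠ 0 := by
      intro h
      rw [h, mul_zero] at e2
      exact (qp_pos hq0 hq _).ne' e2
    rw [e1, e2, e3]
    field_simp
    ring

include hq0 hq in
theorem tt_tsum_succ (s : ℕ) : ∑' j, tt q s j = ∑' j, tt q (s + 1) j := by
  have h1 : HasSum (fun j => tt q s j - tt q (s + 1) j) (∑' j, tt q s j - ∑' j, tt q (s + 1) j) :=
    (tt_summable hq0 hq s).hasSum.sub (tt_summable hq0 hq (s + 1)).hasSum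
  have h2 := (tendsto_add_atTop_iff_nat 1).2 h1.tendsto_sum_nat
  have h3 : Tendsto (fun n => ∑ j ∈ Finset.range (n + 1), (tt q s j - tt q (s + 1) j)) atTop (𝓝 0) := by
    have h4 : Tendsto (fun n => -(q ^ (n + s + 1) * tt q (s + 1) n)) atTop (𝓝 0) := by
      have h5 := (tt_summable hq0 hq (s + 1)).tendsto_atTop_zero
      have h6 : Tendsto (fun n : ℕ => q ^ (n + s + 1)) atTop (𝓝 0) :=
        (tendsto_add_atTop_iff_nat (s + 1)).2 (tendsto_pow_atTop_nhds_zero_of_lt_one hq0.le (by linarith))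
      have := (h6.mul h5).neg
      rwa [mul_zero, neg_zero] at this
    refine h4.congr fun n => ?_
    rw [tt_tel hq0 hq]
  have := tendsto_nhds_unique h2 h3
  linarith

include hq0 hq in
theorem tt_tsum (s : ℕ) : ∑' j, tt q s j = ∑' j, tt q 0 j := by
  induction s with
  | zero => rfl
  | succ s ih => rw [← tt_tsum_succ hq0 hq, ih]

include hq0 hq in
theorem tsum_ge : 1 ≤ ∑' j, tt q 0 j := by
  have h := (tt_summable hq0 hq 0).le_tsum 0 fun j _ => (tt_pos hq0 hq 0 j).le
  have e : tt q 0 0 = 1 := by simp [tt, qp]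
  rwa [e] at h

include hq0 hq in
theorem tsum_le : ∑' j, tt q 0 j ≤ 32 := by
  have hg := (summable_geometric_of_lt_one hq0.le (by linarith : q < 1))
  calc ∑' j, tt q 0 j ≤ ∑' j, 16 * q ^ j :=
        (tt_summable hq0 hq 0).tsum_le_tsum (tt_le' hq0 hq 0) (hg.mul_left 16)
    _ = 16 * (1 - q)⁻¹ := by rw [tsum_mul_left, tsum_geometric_of_lt_one hq0.le (by linarith)]
    _ ≤ 32 := by
        have : (1 - q)⁻¹ ≤ 2 := by
          rw [inv_le_comm₀ (by linarith) (by norm_num)]
          linarith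
        linarith

end

/-! ### the law -/

section

variable {p : ℕ} (hp : 2 ≤ p)

theorem clWeight_eq (p r : ℕ) : clWeight p r = tt (1 / (p : ℝ)) 0 r := by
  unfold clWeight tt qp
  simp only [add_zero, one_div, inv_pow]
  rw [← sq, ← sq, mul_inv, div_eq_mul_inv]

include hp in
theorem q_pos : 0 < 1 / (p : ℝ) := by
  have : (0 : ℝ) < p := by exact_mod_cast (by omega : 0 < p)
  positivity

include hp in
theorem q_le : 1 / (p : ℝ) ≤ 1 / 2 := by
  have : (2 : ℝ) ≤ p := by exact_mod_cast hp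
  exact one_div_le_one_div_of_le (by norm_num) this

theorem law_lint (w : ℕ → ℝ) (g : ℕ → ℝ≥0∞) : ∫⁻ r, g r ∂(law w) = ∑' r, ENNReal.ofReal (w r) * g r := by
  unfold law
  rw [lintegral_sum_measure]
  refine tsum_congr fun r => ?_
  rw [lintegral_smul_measure, lintegral_dirac, smul_eq_mul]

theorem law_int {w f : ℕ → ℝ} (hw : ∀ r, 0 ≤ w r) (hf : ∀ r, 0 ≤ f r) (hs : Summable fun r => w r * f r) :
    Integrable f (law w) ∧ ∫ r, f r ∂(law w) = ∑' r, w r * f r := by
  have e : ∫⁻ r, ENNReal.ofReal (f r) ∂(law w) = ENNReal.ofReal (∑' r, w r * f r) := by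
    rw [law_lint, ENNReal.ofReal_tsum_of_nonneg (fun r => mul_nonneg (hw r) (hf r)) hs]
    exact tsum_congr fun r => (ENNReal.ofReal_mul (hw r)).symm
  constructor
  · refine ⟨Measurable.of_discrete.aestronglyMeasurable, ?_⟩
    rw [hasFiniteIntegral_iff_ofReal (Eventually.of_forall hf), e]
    exact ENNReal.ofReal_lt_top
  · rw [integral_eq_lintegral_of_nonneg_ae (Eventually.of_forall hf) Measurable.of_discrete.aestronglyMeasurable, e,
      ENNReal.toReal_ofReal (tsum_nonneg fun r => mul_nonneg (hw r) (hf r))]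

theorem law_apply {w : ℕ → ℝ} (S : Set ℕ) :
    law w S = ∑' r, ENNReal.ofReal (w r) * S.indicator (fun _ => 1) r := by
  have h : MeasurableSet S := MeasurableSet.of_discrete
  rw [← lintegral_indicator_one h, law_lint]
  rfl

theorem law_real {w : ℕ → ℝ} (hw : ∀ r, 0 ≤ w r) (hs : Summable w) (S : Set ℕ) :
    (law w).real S = ∑' r, w r * S.indicator (fun _ => 1) r := by
  have hi : ∀ r, 0 ≤ S.indicator (fun _ => (1 : ℝ)) r := fun r => Set.indicator_nonneg (fun _ _ => zero_le_one) r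
  have hs' : Summable fun r => w r * S.indicator (fun _ => (1 : ℝ)) r :=
    Summable.of_nonneg_of_le (fun r => mul_nonneg (hw r) (hi r))
      (fun r => mul_le_of_le_one_right (hw r) (Set.indicator_le_self' (fun _ _ => zero_le_one) r |>.trans
        (by simp))) hs
  have h := (law_int hw hi hs').2
  rw [← h, integral_indicator MeasurableSet.of_discrete, setIntegral_const, smul_eq_mul, mul_one]

/-- the normalized weights -/
def nw (p r : ℕ) : ℝ := clWeight p r / ∑' i, clWeight p i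

theorem clLaw_eq (p : ℕ) : clLaw p = law (nw p) := rfl

theorem tsum_cl (p : ℕ) : ∑' i, clWeight p i = ∑' i, tt (1 / (p : ℝ)) 0 i := tsum_congr (clWeight_eq p)

include hp in
theorem nw_nonneg (r : ℕ) : 0 ≤ nw p r := by
  unfold nw
  rw [tsum_cl, clWeight_eq]
  exact div_nonneg (tt_pos (q_pos hp) (q_le hp) 0 r).le (zero_le_one.trans (tsum_ge (q_pos hp) (q_le hp)))

include hp in
theorem nw_summable : Summable (nw p) := by
  unfold nw
  simp only [clWeight_eq]
  exact (tt_summable (q_pos hp) (q_le hp) 0).div_const _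

include hp in
theorem nw_tsum : ∑' r, nw p r = 1 := by
  unfold nw
  rw [tsum_div_const, tsum_cl]
  exact div_self (ne_of_gt (zero_lt_one.trans_le (tsum_ge (q_pos hp) (q_le hp))))

include hp in
theorem clLaw_prob : IsProbabilityMeasure (clLaw p) := by
  refine ⟨?_⟩
  rw [clLaw_eq, law_apply]
  simp only [Set.indicator_univ, mul_one]
  rw [← ENNReal.ofReal_tsum_of_nonneg (nw_nonneg hp) (nw_summable hp), nw_tsum hp, ENNReal.ofReal_one]

include hp in
theorem nw_le (r : ℕ) : nw p r ≤ 16 * (1 / (p : ℝ)) ^ (r ^ 2) := by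
  unfold nw
  rw [tsum_cl, clWeight_eq]
  have h1 := tsum_ge (q_pos hp) (q_le hp)
  refine (div_le_self (tt_pos (q_pos hp) (q_le hp) 0 r).le h1).trans ?_
  have := tt_le (q_pos hp) (q_le hp) 0 r
  rwa [add_zero, ← sq] at this

include hp in
theorem nw_ge (r : ℕ) : (1 / (p : ℝ)) ^ (r ^ 2) / 32 ≤ nw p r := by
  unfold nw
  rw [tsum_cl, clWeight_eq]
  have h1 := tsum_ge (q_pos hp) (q_le hp)
  have h2 := tsum_le (q_pos hp) (q_le hp)
  have h3 : (1 / (p : ℝ)) ^ (r ^ 2) ≤ tt (1 / (p : ℝ)) 0 r := by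
    unfold tt
    rw [add_zero, ← sq, le_div_iff₀ (mul_pos (qp_pos (q_pos hp) (q_le hp) _) (qp_pos (q_pos hp) (q_le hp) _))]
    have h4 := qp_le (q_pos hp) (q_le hp) r
    have h5 := qp_pos (q_pos hp) (q_le hp) r
    have h6 : qp (1 / (p : ℝ)) r * qp (1 / (p : ℝ)) r ≤ 1 := mul_le_one₀ h4 h5.le h4
    exact mul_le_of_le_one_right (pow_nonneg (q_pos hp).le _) h6
  exact div_le_div₀ (tt_pos (q_pos hp) (q_le hp) 0 r).le h3 (by linarith) h2

end

end

end Pool.Agent.Q197.ML
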