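import Mathlib

/-!
# Project ML, module Dev: deviations of the averages of `N` independent variables

`Dv f m N ε`: for some `j ≤ N` the sum of `f (x i) - m` over `i < j` is larger than `ε N` in absolute value.  `dev_le`
bounds its probability by truncation at `T` and exponential moments.
-/

set_option autoImplicit false

open MeasureTheory ProbabilityTheory Filter
open scoped ENNReal NNReal Topology

namespace Pool.Agent.Q197.ML

theorem nat_int {ν : Measure ℕ} [IsProbabilityMeasure ν] {Y : ℕ → ℝ} {T : ℝ} (hY : ∀ r, |Y r| ≤ T) :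
    Integrable Y ν :=
  Integrable.of_bound (Measurable.of_discrete.aestronglyMeasurable) T
    (Eventually.of_forall fun r => by rw [Real.norm_eq_abs]; exact hY r)

/-- exponential moments of a centered bounded variable -/
theorem exp_moment {ν : Measure ℕ} [IsProbabilityMeasure ν] {Y : ℕ → ℝ} {T V l : ℝ} (hY : ∀ r, |Y r| ≤ T)
    (h0 : ∫ r, Y r ∂ν = 0) (hV : ∫ r, Y r ^ 2 ∂ν ≤ V) (hl : 0 ≤ l) (hlT : l * T ≤ 1) :
    ∫ r, Real.exp (l * Y r) ∂ν ≤ Real.exp (l ^ 2 * V) := by
  have hlY : ∀ r, |l * Y r| ≤ 1 := fun r => by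
    rw [abs_mul, abs_of_nonneg hl]
    exact (mul_le_mul_of_nonneg_left (hY r) hl).trans hlT
  have i1 : Integrable (fun r => Real.exp (l * Y r)) ν := nat_int (T := Real.exp 1) fun r => by
    rw [abs_of_pos (Real.exp_pos _)]
    exact Real.exp_le_exp.2 ((le_abs_self _).trans (hlY r))
  have i2 : Integrable Y ν := nat_int hY
  have i3 : Integrable (fun r => Y r ^ 2) ν := nat_int (T := T ^ 2) fun r => by
    rw [abs_pow]
    exact pow_le_pow_left₀ (abs_nonneg _) (hY r) 2
  have hle : ∀ r, Real.exp (l * Y r) ≤ 1 + l * Y r + l ^ 2 * Y r ^ 2 := by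
    intro r
    have h := Real.abs_exp_sub_one_sub_id_le (hlY r)
    have h1 := (abs_le.1 h).2
    rw [mul_pow] at h1
    linarith
  calc ∫ r, Real.exp (l * Y r) ∂ν ≤ ∫ r, (1 + l * Y r + l ^ 2 * Y r ^ 2) ∂ν :=
        integral_mono i1 (((integrable_const _).add (i2.const_mul l)).add (i3.const_mul _)) hle
    _ = 1 + l * ∫ r, Y r ∂ν + l ^ 2 * ∫ r, Y r ^ 2 ∂ν := by
        have h3 : Integrable (fun r => 1 + l * Y r) ν := (integrable_const _).add (i2.const_mul l)
        rw [integral_add h3 (i3.const_mul _), integral_add (integrable_const _) (i2.const_mul l), integral_const_mul,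
          integral_const_mul]
        simp
    _ ≤ 1 + l ^ 2 * V := by
        rw [h0, mul_zero, add_zero]
        have := mul_le_mul_of_nonneg_left hV (sq_nonneg l)
        linarith
    _ ≤ Real.exp (l ^ 2 * V) := by
        have := Real.add_one_le_exp (l ^ 2 * V)
        linarith

theorem chernoff {ι : Type*} [Fintype ι] [DecidableEq ι] {ν : Measure ℕ} [IsProbabilityMeasure ν] (S : Finset ι)
    {Y : ℕ → ℝ} {T V l : ℝ} (hY : ∀ r, |Y r| ≤ T) (h0 : ∫ r, Y r ∂ν = 0) (hV : ∫ r, Y r ^ 2 ∂ν ≤ V) (hV0 : 0 ≤ V)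
    (hl : 0 ≤ l) (hlT : l * T ≤ 1) (a : ℝ) :
    (Measure.pi fun _ : ι => ν).real {x | a ≤ ∑ i ∈ S, Y (x i)} ≤
      Real.exp (Fintype.card ι * (l ^ 2 * V) - l * a) := by
  have hT0 : 0 ≤ T := (abs_nonneg _).trans (hY 0)
  have hlY : ∀ r, |l * Y r| ≤ 1 := fun r => by
    rw [abs_mul, abs_of_nonneg hl]
    exact (mul_le_mul_of_nonneg_left (hY r) hl).trans hlT
  have hb : ∀ x : ι → ℕ, |∑ i ∈ S, Y (x i)| ≤ S.card * T := fun x => by
    calc |∑ i ∈ S, Y (x i)| ≤ ∑ i ∈ S, |Y (x i)| := Finset.abs_sum_le_sum_abs _ _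
      _ ≤ ∑ i ∈ S, T := Finset.sum_le_sum fun i _ => hY _
      _ = _ := by rw [Finset.sum_const, nsmul_eq_mul]
  have hm : Measurable fun x : ι → ℕ => ∑ i ∈ S, Y (x i) :=
    Finset.measurable_sum _ fun i _ => Measurable.of_discrete.comp (measurable_pi_apply i)
  have hint : Integrable (fun x : ι → ℕ => Real.exp (l * ∑ i ∈ S, Y (x i))) (Measure.pi fun _ : ι => ν) := by
    refine Integrable.of_bound ((hm.const_mul l).exp).aestronglyMeasurable (Real.exp (l * (S.card * T)))
      (Eventually.of_forall fun x => ?_)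
    rw [Real.norm_eq_abs, abs_of_pos (Real.exp_pos _)]
    exact Real.exp_le_exp.2 (mul_le_mul_of_nonneg_left ((le_abs_self _).trans (hb x)) hl)
  refine (measure_ge_le_exp_mul_mgf a hl hint).trans ?_
  have e1 : mgf (fun x : ι → ℕ => ∑ i ∈ S, Y (x i)) (Measure.pi fun _ : ι => ν) l =
      ∏ i : ι, ∫ r, (if i ∈ S then Real.exp (l * Y r) else 1) ∂ν := by
    unfold mgf
    rw [← integral_fintype_prod_eq_prod (μ := fun _ : ι => ν)
      (f := fun i r => if i ∈ S then Real.exp (l * Y r) else (1 : ℝ))]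
    refine integral_congr_ae (Eventually.of_forall fun x => ?_)
    simp only
    rw [Finset.prod_ite_mem, Finset.univ_inter, Finset.mul_sum, Real.exp_sum]
  have e2 : ∏ i : ι, ∫ r, (if i ∈ S then Real.exp (l * Y r) else 1) ∂ν ≤ ∏ i : ι, Real.exp (l ^ 2 * V) := by
    refine Finset.prod_le_prod (fun i _ => integral_nonneg fun r => ?_) fun i _ => ?_
    · simp only [Pi.zero_apply]
      split_ifs
      · exact (Real.exp_pos _).le
      · norm_num
    · split_ifs
      · exact exp_moment hY h0 hV hl hlT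
      · simp only [integral_const, probReal_univ, smul_eq_mul, mul_one]
        exact Real.one_le_exp (by positivity)
  rw [e1]
  refine (mul_le_mul_of_nonneg_left e2 (Real.exp_pos _).le).trans ?_
  rw [Finset.prod_const, Finset.card_univ, ← Real.exp_nat_mul, ← Real.exp_add]
  refine Real.exp_le_exp.2 (le_of_eq ?_)
  ring

/-- the sum of `f (x i) - m` over `i < j` -/
noncomputable def ps (f : ℕ → ℝ) (m : ℝ) {N : ℕ} (x : Fin N → ℕ) (j : ℕ) : ℝ :=
  ∑ i ∈ Finset.univ.filter (fun i : Fin N => (i : ℕ) < j), (f (x i) - m)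

/-- some initial sum of `f (x i) - m` is larger than `ε N` in absolute value -/
def Dv (f : ℕ → ℝ) (m : ℝ) (N : ℕ) (ε : ℝ) : Set (Fin N → ℕ) :=
  {x | ∃ j ≤ N, ε * N < |ps f m x j|}

theorem dev_le {ν : Measure ℕ} [IsProbabilityMeasure ν] {f : ℕ → ℝ} {m V : ℝ} (hf0 : ∀ r, 0 ≤ f r)
    (hfi : Integrable f ν) (hfm : ∫ r, f r ∂ν = m) (hf2 : Integrable (fun r => f r ^ 2) ν)
    (hV : ∫ r, f r ^ 2 ∂ν ≤ V) {T l ε : ℝ} (hT : 0 < T) (hVT : V / T ≤ ε / 2) (hl : 0 ≤ l) (hlT : l * T ≤ 1) (N : ℕ) :
    (Measure.pi fun _ : Fin N => ν).real (Dv f m N ε) ≤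
      N * ν.real {r | T < f r} + 2 * (N + 1) * Real.exp (N * (l ^ 2 * V) - l * (ε * N / 2)) := by
  have hV0 : 0 ≤ V := (integral_nonneg fun r => sq_nonneg (f r)).trans hV
  set g : ℕ → ℝ := fun r => if f r ≤ T then f r else 0 with hg
  have hg0 : ∀ r, 0 ≤ g r := fun r => by
    simp only [hg]; split_ifs
    · exact hf0 r
    · exact le_rfl
  have hgT : ∀ r, g r ≤ T := fun r => by
    simp only [hg]; split_ifs with h
    · exact h
    · exact hT.le
  have hgf : ∀ r, g r ≤ f r := fun r => by
    simp only [hg]; split_ifs with h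
    · exact le_rfl
    · exact hf0 r
  have hgi : Integrable g ν := nat_int (T := T) fun r => by rw [abs_of_nonneg (hg0 r)]; exact hgT r
  set c : ℝ := ∫ r, g r ∂ν with hc
  have hc0 : 0 ≤ c := integral_nonneg hg0
  have hcT : c ≤ T := by
    calc c ≤ ∫ _r, T ∂ν := integral_mono hgi (integrable_const _) hgT
      _ = T := by simp
  have hcm : |c - m| ≤ ε / 2 := by
    have h1 : m - c = ∫ r, (f r - g r) ∂ν := by rw [integral_sub hfi hgi, hfm]
    have h2 : ∀ r, f r - g r ≤ f r ^ 2 / T := fun r => by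
      simp only [hg]; split_ifs with h
      · rw [sub_self]; positivity
      · rw [sub_zero, le_div_iff₀ hT, sq]
        exact mul_le_mul_of_nonneg_left (not_le.1 h).le (hf0 r)
    have h3 : m - c ≤ V / T := by
      rw [h1]
      calc ∫ r, (f r - g r) ∂ν ≤ ∫ r, f r ^ 2 / T ∂ν := integral_mono (hfi.sub hgi) (hf2.div_const _) h2
        _ = (∫ r, f r ^ 2 ∂ν) / T := integral_div _ _
        _ ≤ V / T := div_le_div_of_nonneg_right hV hT.le
    have h4 : 0 ≤ m - c := by
      rw [h1]
      exact integral_nonneg fun r => sub_nonneg.2 (hgf r)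
    rw [abs_sub_comm, abs_of_nonneg h4]
    exact h3.trans hVT
  set Y : ℕ → ℝ := fun r => g r - c with hY
  have hYT : ∀ r, |Y r| ≤ T := fun r => by
    rw [abs_le]
    constructor
    · simp only [hY]; linarith [hg0 r]
    · simp only [hY]; linarith [hgT r]
  have hY0 : ∫ r, Y r ∂ν = 0 := by
    simp only [hY]
    rw [integral_sub hgi (integrable_const _)]
    simp [hc]
  have hYV : ∫ r, Y r ^ 2 ∂ν ≤ V := by
    have i3 : Integrable (fun r => g r ^ 2) ν := nat_int (T := T ^ 2) fun r => by
      rw [abs_of_nonneg (sq_nonneg _)]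
      exact pow_le_pow_left₀ (hg0 r) (hgT r) 2
    have e1 : ∫ r, Y r ^ 2 ∂ν = ∫ r, g r ^ 2 ∂ν - c ^ 2 := by
      have e0 : (fun r => Y r ^ 2) = fun r => g r ^ 2 - (2 * c * g r - c ^ 2) := by
        funext r
        simp only [hY]
        ring
      have i4 : Integrable (fun r => 2 * c * g r - c ^ 2) ν := (hgi.const_mul _).sub (integrable_const _)
      rw [e0, integral_sub i3 i4, integral_sub (hgi.const_mul _)
        (integrable_const _), integral_const_mul]
      simp only [← hc, integral_const, probReal_univ, smul_eq_mul]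
      ring
    have e2 : ∫ r, g r ^ 2 ∂ν ≤ ∫ r, f r ^ 2 ∂ν :=
      integral_mono i3 hf2 fun r => pow_le_pow_left₀ (hg0 r) (hgf r) 2
    nlinarith [sq_nonneg c]
  have hnY : ∀ r, |(fun r => -Y r) r| ≤ T := fun r => by
    simp only [abs_neg]
    exact hYT r
  have hnY0 : ∫ r, (fun r => -Y r) r ∂ν = 0 := by
    simp only
    rw [integral_neg, hY0, neg_zero]
  have hnYV : ∫ r, (fun r => -Y r) r ^ 2 ∂ν ≤ V := by
    simp only [neg_sq]
    exact hYV
  set S : ℕ → Finset (Fin N) := fun j => Finset.univ.filter (fun i : Fin N => (i : ℕ) < j) with hS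
  set B0 : Set (Fin N → ℕ) := ⋃ i ∈ (Finset.univ : Finset (Fin N)), {x | T < f (x i)} with hB0
  set P : ℕ → Set (Fin N → ℕ) := fun j => {x | ε * N / 2 ≤ ∑ i ∈ S j, Y (x i)} with hP
  set M : ℕ → Set (Fin N → ℕ) := fun j => {x | ε * N / 2 ≤ ∑ i ∈ S j, (fun r => -Y r) (x i)} with hM
  have hsub : Dv f m N ε ⊆ B0 ∪ ⋃ j ∈ Finset.range (N + 1), (P j ∪ M j) := by
    intro x hx
    obtain ⟨j, hj, hx⟩ := hx
    by_cases hB : x ∈ B0
    · exact Or.inl hB
    · right
      have hB' : ∀ i : Fin N, f (x i) ≤ T := fun i => by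
        by_contra hcon
        exact hB (Set.mem_biUnion (Finset.mem_coe.2 (Finset.mem_univ i)) (not_le.1 hcon))
      refine Set.mem_biUnion (Finset.mem_coe.2 (Finset.mem_range.2 (Nat.lt_succ_of_le hj))) ?_
      have e1 : ps f m x j = ∑ i ∈ S j, Y (x i) + (S j).card * (c - m) := by
        unfold ps
        rw [← nsmul_eq_mul, ← Finset.sum_const, ← Finset.sum_add_distrib]
        refine Finset.sum_congr rfl fun i _ => ?_
        simp only [hY, hg]
        rw [if_pos (hB' i)]
        ring
      have e2 : |((S j).card : ℝ) * (c - m)| ≤ ε * N / 2 := by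
        have hcard : ((S j).card : ℝ) ≤ N := by
          have := Finset.card_le_univ (S j)
          rw [Fintype.card_fin] at this
          exact_mod_cast this
        rw [abs_mul, abs_of_nonneg (Nat.cast_nonneg _)]
        calc ((S j).card : ℝ) * |c - m| ≤ N * (ε / 2) :=
              mul_le_mul hcard hcm (abs_nonneg _) (Nat.cast_nonneg _)
          _ = ε * N / 2 := by ring
      rw [e1] at hx
      have e3 : ε * N / 2 ≤ |∑ i ∈ S j, Y (x i)| := by
        have := abs_add_le (∑ i ∈ S j, Y (x i)) ((S j).card * (c - m))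
        linarith
      rcases le_abs.1 e3 with h | h
      · exact Or.inl h
      · right
        simp only [hM, Set.mem_setOf_eq]
        rw [Finset.sum_neg_distrib]
        exact h
  have hmB : (Measure.pi fun _ : Fin N => ν).real B0 ≤ N * ν.real {r | T < f r} := by
    refine (measureReal_biUnion_finset_le _ _).trans ?_
    have : ∀ i ∈ (Finset.univ : Finset (Fin N)),
        (Measure.pi fun _ : Fin N => ν).real {x | T < f (x i)} ≤ ν.real {r | T < f r} := by
      intro i _
      have hp := (measurePreserving_eval (fun _ : Fin N => ν) i).measure_preimage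
        (s := {r | T < f r}) (MeasurableSet.of_discrete.nullMeasurableSet)
      refine le_of_eq ?_
      rw [measureReal_def, measureReal_def, ← hp]
      rfl
    refine (Finset.sum_le_sum this).trans ?_
    rw [Finset.sum_const, Finset.card_univ, Fintype.card_fin, nsmul_eq_mul]
  have hmP : ∀ j, (Measure.pi fun _ : Fin N => ν).real (P j) ≤
      Real.exp (N * (l ^ 2 * V) - l * (ε * N / 2)) := fun j => by
    have := chernoff (ν := ν) (S j) hYT hY0 hYV hV0 hl hlT (ε * N / 2)
    rwa [Fintype.card_fin] at this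
  have hmM : ∀ j, (Measure.pi fun _ : Fin N => ν).real (M j) ≤
      Real.exp (N * (l ^ 2 * V) - l * (ε * N / 2)) := fun j => by
    have := chernoff (ν := ν) (S j) hnY hnY0 hnYV hV0 hl hlT (ε * N / 2)
    rwa [Fintype.card_fin] at this
  calc (Measure.pi fun _ : Fin N => ν).real (Dv f m N ε)
      ≤ (Measure.pi fun _ : Fin N => ν).real (B0 ∪ ⋃ j ∈ Finset.range (N + 1), (P j ∪ M j)) := measureReal_mono hsub
    _ ≤ (Measure.pi fun _ : Fin N => ν).real B0 +
        (Measure.pi fun _ : Fin N => ν).real (⋃ j ∈ Finset.range (N + 1), (P j ∪ M j)) := measureReal_union_le _ _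
    _ ≤ N * ν.real {r | T < f r} + 2 * (N + 1) * Real.exp (N * (l ^ 2 * V) - l * (ε * N / 2)) := by
        refine add_le_add hmB ((measureReal_biUnion_finset_le _ _).trans ?_)
        calc ∑ j ∈ Finset.range (N + 1), (Measure.pi fun _ : Fin N => ν).real (P j ∪ M j)
            ≤ ∑ _j ∈ Finset.range (N + 1), 2 * Real.exp (N * (l ^ 2 * V) - l * (ε * N / 2)) := by
              refine Finset.sum_le_sum fun j _ => (measureReal_union_le _ _).trans ?_
              have h1 := hmP j
              have h2 := hmM j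
              linarith
          _ = 2 * (N + 1) * Real.exp (N * (l ^ 2 * V) - l * (ε * N / 2)) := by
              rw [Finset.sum_const, Finset.card_range, nsmul_eq_mul]
              push_cast
              ring

end Pool.Agent.Q197.ML
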