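import Pool.Agent.Q197.ML.Sur
import Pool.Agent.Q197.ML.Dev

/-!
# Project ML, module Asy: the probability of a deviation of the average number of surjections under the model
-/

set_option autoImplicit false

open MeasureTheory Filter Asymptotics
open scoped ENNReal Topology

namespace Pool.Agent.Q197.ML

noncomputable section

/-- the price `(log N)² / (s² log p)` -/
def uu (p s N : ℕ) : ℝ := Real.log N ^ 2 / ((s : ℝ) ^ 2 * Real.log p)

theorem log_tendsto : Tendsto (fun N : ℕ => Real.log N) atTop atTop :=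
  Real.tendsto_log_atTop.comp tendsto_natCast_atTop_atTop

theorem pow_le_exp {k : ℕ} {δ c : ℝ} (hδ : 0 < δ) (hc : 0 < c) : ∀ᶠ x : ℝ in atTop, x ^ k ≤ c * Real.exp (δ * x) := by
  have h := (isLittleO_pow_exp_pos_mul_atTop (k := k) hδ).bound hc
  filter_upwards [h] with x hx
  rw [Real.norm_eq_abs, Real.norm_eq_abs, abs_of_pos (Real.exp_pos _)] at hx
  exact (le_abs_self _).trans hx

theorem lin_le_sq {A B c : ℝ} (hc : 0 < c) : ∀ᶠ x : ℝ in atTop, A * x + B ≤ c * x ^ 2 := by
  filter_upwards [eventually_ge_atTop (1 : ℝ), eventually_ge_atTop ((|A| + |B|) / c)] with x h1 h2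
  rw [div_le_iff₀ hc] at h2
  have h3 : A * x ≤ |A| * x := mul_le_mul_of_nonneg_right (le_abs_self A) (by linarith)
  have h4 : B ≤ |B| * x := (le_abs_self B).trans (le_mul_of_one_le_right (abs_nonneg B) h1)
  nlinarith

variable {p s : ℕ} (hp : 2 ≤ p) (hs : 1 ≤ s)

include hp in
theorem logp_pos : 0 < Real.log p := Real.log_pos (by exact_mod_cast (by omega : 1 < p))

include hp hs in
theorem uu_const : 0 < ((s : ℝ) ^ 2 * Real.log p) := by
  have : (0 : ℝ) < s := by exact_mod_cast hs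
  have := logp_pos hp
  positivity

include hp hs in
/-- few groups have many surjections -/
theorem cl_many {x : ℝ} (hx : 0 ≤ x) :
    (clLaw p).real {r | Real.exp x < (sur p s r : ℝ)} ≤ 32 * Real.exp (-(x ^ 2 / ((s : ℝ) ^ 2 * Real.log p))) := by
  have := clLaw_prob hp
  have ha := logp_pos hp
  have hs0 : (0 : ℝ) < s := by exact_mod_cast hs
  have hp0 : (0 : ℝ) < p := by exact_mod_cast (by omega : 0 < p)
  have hy : 0 ≤ x / (s * Real.log p) := by positivity
  have hsub : {r : ℕ | Real.exp x < (sur p s r : ℝ)} ⊆ {r | x / (s * Real.log p) ≤ (r : ℝ)} := by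
    intro r hr
    simp only [Set.mem_setOf_eq] at hr ⊢
    have h1 := hr.trans_le (sur_le hp s r)
    rw [← Real.exp_log (pow_pos hp0 (r * s)), Real.exp_lt_exp, Real.log_pow] at h1
    rw [div_le_iff₀ (by positivity)]
    push_cast at h1
    nlinarith
  refine (measureReal_mono hsub).trans ((cl_tail hp hy).trans (le_of_eq ?_))
  congr 3
  field_simp

include hp hs in
theorem model_dev {ε η : ℝ} (hε : 0 < ε) (hη0 : 0 < η) (hη1 : η ≤ 1) : ∀ᶠ N : ℕ in atTop,
    (Measure.pi fun _ : Fin N => clLaw p).real (Dv (fun r => (sur p s r : ℝ)) 1 N ε) ≤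
      Real.exp (-((1 - η) * uu p s N)) := by
  have := clLaw_prob hp
  set V : ℝ := ∫ r, (sur p s r : ℝ) ^ 2 ∂(clLaw p) with hV
  have hV0 : 0 ≤ V := integral_nonneg fun r => sq_nonneg _
  set κ : ℝ := (s : ℝ) ^ 2 * Real.log p with hκ
  have hκ0 : 0 < κ := uu_const hp hs
  set δ : ℝ := η / 4 with hδ
  have hδ0 : 0 < δ := by positivity
  have hδ1 : δ ≤ 1 / 4 := by rw [hδ]; linarith
  have A1 := log_tendsto.eventually (lin_le_sq (A := 1) (B := Real.log 64) (c := η / 2 / κ) (by positivity))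
  have A2 := log_tendsto.eventually (pow_le_exp (k := 2) hδ0 (c := ε * κ / 16) (by positivity))
  have A3 := log_tendsto.eventually (pow_le_exp (k := 1) hδ0 (c := ε / 16) (by positivity))
  have A4 := log_tendsto.eventually (pow_le_exp (k := 0) hδ0 (c := ε / 16 / (Real.log 8 + 1)) (by
    have := Real.log_nonneg (by norm_num : (1 : ℝ) ≤ 8)
    positivity))
  have A5 := log_tendsto.eventually (pow_le_exp (k := 0) (δ := 1 - δ) (by linarith) (c := ε / 8 / (V + 1)) (by positivity))
  filter_upwards [A1, A2, A3, A4, A5, eventually_ge_atTop 1] with N a1 a2 a3 a4 a5 hN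
  have hN0 : (0 : ℝ) < N := by exact_mod_cast hN
  have hN1 : (1 : ℝ) ≤ N := by exact_mod_cast hN
  set x : ℝ := Real.log N with hx
  have hx0 : 0 ≤ x := Real.log_nonneg hN1
  have hNx : (N : ℝ) = Real.exp x := (Real.exp_log hN0).symm
  set T : ℝ := Real.exp ((1 - δ) * x) with hT
  have hT0 : 0 < T := Real.exp_pos _
  have a5' : V + 1 ≤ ε / 8 * T := by
    have h := mul_le_mul_of_nonneg_left a5 (by positivity : 0 ≤ V + 1)
    have e : (V + 1) * (ε / 8 / (V + 1) * T) = ε / 8 * T := by field_simp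
    rw [pow_zero, mul_one, e] at h
    exact h
  have hVT : V / T ≤ ε / 2 := by
    rw [div_le_iff₀ hT0]
    have : 0 < ε * T := by positivity
    linarith
  have hl : 0 ≤ 1 / T := by positivity
  have hlT : 1 / T * T ≤ 1 := by rw [one_div, inv_mul_cancel₀ hT0.ne']
  have main := dev_le (ν := clLaw p) (f := fun r => (sur p s r : ℝ)) (m := 1) (V := V) (fun r => Nat.cast_nonneg _)
    (sur_integrable hp s) (sur_mean hp s) (sur_sq_integrable hp s) le_rfl hT0 hVT hl hlT N
  refine main.trans ?_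
  have hu : uu p s N = x ^ 2 / κ := rfl
  have hu0 : 0 ≤ x ^ 2 / κ := by positivity
  rw [hu]
  -- first term
  have t1 : (N : ℝ) * (clLaw p).real {r | T < (sur p s r : ℝ)} ≤ 1 / 2 * Real.exp (-((1 - η) * (x ^ 2 / κ))) := by
    have h1 := cl_many hp hs (x := (1 - δ) * x) (mul_nonneg (by linarith) hx0)
    have h2 : (N : ℝ) * (clLaw p).real {r | T < (sur p s r : ℝ)} ≤
        Real.exp x * (32 * Real.exp (-(((1 - δ) * x) ^ 2 / κ))) := by
      rw [hNx]
      exact mul_le_mul_of_nonneg_left h1 (Real.exp_pos _).le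
    refine h2.trans ?_
    have h3 : Real.exp (x + Real.log 64 + -(((1 - δ) * x) ^ 2 / κ)) ≤ Real.exp (-((1 - η) * (x ^ 2 / κ))) := by
      refine Real.exp_le_exp.2 ?_
      have h4 : ((1 - δ) * x) ^ 2 / κ = (1 - δ) ^ 2 * (x ^ 2 / κ) := by ring
      have h5 : η / 2 / κ * x ^ 2 = η / 2 * (x ^ 2 / κ) := by ring
      rw [h5, one_mul] at a1
      rw [h4]
      have h6 : 1 - η / 2 ≤ (1 - δ) ^ 2 := by rw [hδ]; nlinarith
      nlinarith
    rw [Real.exp_add, Real.exp_add, Real.exp_log (show (0 : ℝ) < 64 by norm_num)] at h3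
    linarith
  -- second term
  have t2 : 2 * ((N : ℝ) + 1) * Real.exp (N * ((1 / T) ^ 2 * V) - 1 / T * (ε * N / 2)) ≤
      1 / 2 * Real.exp (-((1 - η) * (x ^ 2 / κ))) := by
    have e1 : (N : ℝ) * (1 / T) = Real.exp (δ * x) := by
      rw [hNx, hT, one_div, ← Real.exp_neg, ← Real.exp_add]
      congr 1
      ring
    have e2 : (N : ℝ) * ((1 / T) ^ 2 * V) - 1 / T * (ε * N / 2) = Real.exp (δ * x) * (V / T) -
        ε / 2 * Real.exp (δ * x) := by
      rw [← e1]
      field_simp
    have e3 : V / T ≤ ε / 8 := by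
      rw [div_le_iff₀ hT0]
      linarith
    have e4 : 2 * ((N : ℝ) + 1) ≤ 4 * Real.exp x := by rw [← hNx]; linarith
    have hE : 0 < Real.exp (δ * x) := Real.exp_pos _
    have e5 : Real.exp (x + Real.log 8 + (Real.exp (δ * x) * (V / T) - ε / 2 * Real.exp (δ * x))) ≤
        Real.exp (-((1 - η) * (x ^ 2 / κ))) := by
      refine Real.exp_le_exp.2 ?_
      have f1 : x ≤ ε / 16 * Real.exp (δ * x) := by rw [pow_one] at a3; exact a3
      have f2 : Real.log 8 ≤ ε / 16 * Real.exp (δ * x) := by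
        have hl8 := Real.log_nonneg (by norm_num : (1 : ℝ) ≤ 8)
        rw [pow_zero, div_mul_eq_mul_div, le_div_iff₀ (by positivity), one_mul] at a4
        linarith
      have f3 : x ^ 2 / κ ≤ ε / 16 * Real.exp (δ * x) := by
        rw [div_le_iff₀ hκ0]
        calc x ^ 2 ≤ ε * κ / 16 * Real.exp (δ * x) := a2
          _ = _ := by ring
      have f4 : Real.exp (δ * x) * (V / T) ≤ Real.exp (δ * x) * (ε / 8) := mul_le_mul_of_nonneg_left e3 hE.le
      have f5 : (1 - η) * (x ^ 2 / κ) ≤ x ^ 2 / κ := by nlinarith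
      have f6 : 0 < ε * Real.exp (δ * x) := mul_pos hε hE
      linarith
    rw [Real.exp_add, Real.exp_add, Real.exp_log (show (0 : ℝ) < 8 by norm_num)] at e5
    rw [e2]
    have f7 := mul_le_mul_of_nonneg_right e4 (Real.exp_pos (Real.exp (δ * x) * (V / T) - ε / 2 * Real.exp (δ * x))).le
    linarith
  linarith

end

end Pool.Agent.Q197.ML
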