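import Pool.Agent.Q197.ML.Price

/-!
# Project ML, module Blocks: sequences of ranks, dyadic blocks, Borel-Cantelli
-/

set_option autoImplicit false

open MeasureTheory ProbabilityTheory Filter Asymptotics InformationTheory
open scoped ENNReal Topology

namespace Pool.Agent.Q197.ML

noncomputable section

/-- the ranks number `2^k, …, 2^(k+1) - 1` -/
def block {Ω : Type} (r : ℕ → Ω → ℕ) (k : ℕ) (ω : Ω) (i : Fin (2 ^ k)) : ℕ := r (2 ^ k + i) ω

/-- relative entropy of the law of the ranks number `2^k, …, 2^(k+1) - 1` with respect to the model -/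
def relEnt (p : ℕ) {Ω : Type} [MeasurableSpace Ω] (μ : Measure Ω) (r : ℕ → Ω → ℕ) (k : ℕ) : ℝ≥0∞ :=
  klDiv (μ.map (block r k)) (model p (2 ^ k))

/-- the average of `f (x n)` over `1 ≤ n ≤ N` -/
def mean (f : ℕ → ℝ) (x : ℕ → ℕ) (N : ℕ) : ℝ := (∑ n ∈ Finset.Icc 1 N, f (x n)) / N

theorem block_meas {Ω : Type} [MeasurableSpace Ω] {r : ℕ → Ω → ℕ} (hr : ∀ n, Measurable (r n)) (k : ℕ) :
    Measurable (block r k) := measurable_pi_iff.2 fun _ => hr _

/-! ### deterministic part -/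

/-- the sum over `1 ≤ n < M` -/
def sm (g : ℕ → ℝ) (M : ℕ) : ℝ := ∑ n ∈ Finset.Ico 1 M, g n

theorem sm_add (g : ℕ → ℝ) {M : ℕ} (hM : 1 ≤ M) (j : ℕ) : sm g (M + j) = sm g M + ∑ i ∈ Finset.range j, g (M + i) := by
  unfold sm
  rw [← Finset.sum_Ico_consecutive g hM (Nat.le_add_right M j)]
  congr 1
  rw [Finset.sum_Ico_eq_sum_range, Nat.add_sub_cancel_left]

theorem avg_zero {g : ℕ → ℝ}
    (h : ∀ m : ℕ, ∀ᶠ k in atTop, ∀ j ≤ 2 ^ k, |∑ i ∈ Finset.range j, g (2 ^ k + i)| ≤ 1 / ((m : ℝ) + 1) * 2 ^ k) :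
    Tendsto (fun N : ℕ => (∑ n ∈ Finset.Icc 1 N, g n) / N) atTop (𝓝 0) := by
  rw [Metric.tendsto_atTop]
  intro ε hε
  obtain ⟨m, hm⟩ := exists_nat_one_div_lt (show (0 : ℝ) < ε / 6 by positivity)
  obtain ⟨K, hK⟩ := eventually_atTop.1 (h m)
  set e : ℝ := 1 / ((m : ℝ) + 1) with he
  have he0 : 0 < e := by positivity
  set C : ℝ := |sm g (2 ^ K)| with hC
  have h1 : ∀ k, K ≤ k → |sm g (2 ^ k)| ≤ C + e * 2 ^ k := by
    intro k hk
    induction k, hk using Nat.le_induction with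
    | base =>
      have : 0 ≤ e * 2 ^ K := by positivity
      linarith
    | succ k hk ih =>
      have h2 := hK k hk (2 ^ k) le_rfl
      rw [show 2 ^ (k + 1) = 2 ^ k + 2 ^ k by ring, sm_add g Nat.one_le_two_pow]
      have h3 := abs_add_le (sm g (2 ^ k)) (∑ i ∈ Finset.range (2 ^ k), g (2 ^ k + i))
      rw [pow_succ]
      linarith
  obtain ⟨N0, hN0⟩ := exists_nat_ge (2 * C / ε + 1)
  refine ⟨max (max (2 ^ K) N0) 1, fun N hN => ?_⟩
  have hN1 : 1 ≤ N := (le_max_right _ _).trans hN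
  have hNK : 2 ^ K ≤ N + 1 := ((le_max_left _ _).trans ((le_max_left _ _).trans hN)).trans (Nat.le_succ N)
  have hNN : N0 ≤ N := (le_max_right _ _).trans ((le_max_left _ _).trans hN)
  have hNr : (1 : ℝ) ≤ N := by exact_mod_cast hN1
  set k := Nat.log 2 (N + 1) with hk
  have hk1 : 2 ^ k ≤ N + 1 := Nat.pow_log_le_self 2 (Nat.succ_ne_zero N)
  have hk2 : N + 1 < 2 ^ (k + 1) := Nat.lt_pow_succ_log_self (by norm_num) (N + 1)
  have hKk : K ≤ k := by
    rw [hk]
    exact Nat.le_log_of_pow_le (by norm_num) hNK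
  obtain ⟨j, hj⟩ := Nat.exists_eq_add_of_le hk1
  have hj2 : j ≤ 2 ^ k := by
    rw [pow_succ] at hk2
    omega
  have e1 : ∑ n ∈ Finset.Icc 1 N, g n = sm g (N + 1) := rfl
  rw [e1, hj, sm_add g Nat.one_le_two_pow, Real.dist_eq, sub_zero, abs_div, abs_of_nonneg (by linarith : (0 : ℝ) ≤ N),
    div_lt_iff₀ (by linarith)]
  have h4 := h1 k hKk
  have h5 := hK k hKk j hj2
  have h6 := abs_add_le (sm g (2 ^ k)) (∑ i ∈ Finset.range j, g (2 ^ k + i))
  have h7 : (2 : ℝ) ^ k ≤ N + 1 := by exact_mod_cast hk1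
  have h8 : e * 2 ^ k ≤ e * (2 * N) := mul_le_mul_of_nonneg_left (by linarith) he0.le
  have h9 : C ≤ ε / 2 * (N : ℝ) - ε / 2 := by
    have h10 : 2 * C / ε + 1 ≤ N := hN0.trans (by exact_mod_cast hNN)
    have h11 : 2 * C / ε ≤ N - 1 := by linarith
    rw [div_le_iff₀ hε] at h11
    linarith
  nlinarith

/-- the sums over initial segments of a block -/
theorem ps_block {Ω : Type} (r : ℕ → Ω → ℕ) (f : ℕ → ℝ) (m : ℝ) (k : ℕ) (ω : Ω) {j : ℕ} (hj : j ≤ 2 ^ k) :
    ps f m (block r k ω) j = ∑ i ∈ Finset.range j, (f (r (2 ^ k + i) ω) - m) := by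
  unfold ps block
  rw [Finset.sum_filter]
  rw [Fin.sum_univ_eq_sum_range (fun i => if i < j then f (r (2 ^ k + i) ω) - m else 0) (2 ^ k)]
  rw [← Finset.sum_filter]
  refine Finset.sum_congr ?_ fun _ _ => rfl
  ext i
  simp only [Finset.mem_filter, Finset.mem_range]
  omega

theorem mean_tendsto {Ω : Type} (r : ℕ → Ω → ℕ) (f : ℕ → ℝ) (m : ℝ) (ω : Ω)
    (h : ∀ e : ℕ, ∀ᶠ k in atTop, block r k ω ∉ Dv f m (2 ^ k) (1 / ((e : ℝ) + 1))) :
    Tendsto (fun N => mean f (fun n => r n ω) N) atTop (𝓝 m) := by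
  have h1 : Tendsto (fun N : ℕ => (∑ n ∈ Finset.Icc 1 N, (f (r n ω) - m)) / N) atTop (𝓝 0) := by
    refine avg_zero fun e => ?_
    filter_upwards [h e] with k hk j hj
    by_contra hcon
    push Not at hcon
    refine hk ⟨j, hj, ?_⟩
    rw [ps_block r f m k ω hj]
    push_cast
    exact hcon
  have h2 := h1.add_const m
  rw [zero_add] at h2
  refine h2.congr' ?_
  filter_upwards [eventually_ge_atTop 1] with N hN
  have hN0 : (N : ℝ) ≠ 0 := by
    have : 0 < N := hN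
    positivity
  unfold mean
  rw [Finset.sum_sub_distrib, Finset.sum_const, Nat.card_Icc, Nat.add_sub_cancel, nsmul_eq_mul]
  field_simp
  ring

/-! ### first Borel-Cantelli lemma -/

theorem ae_good {p : ℕ} (hp : 2 ≤ p) {Ω : Type} [MeasurableSpace Ω] {μ : Measure Ω} [IsProbabilityMeasure μ]
    {r : ℕ → Ω → ℕ} (hr : ∀ n, Measurable (r n)) {d : ℕ → ℝ} (hd : ∀ k, 0 ≤ d k)
    (hD : ∀ᶠ k in atTop, relEnt p μ r k ≤ ENNReal.ofReal (d k)) (E : ∀ k, Set (Fin (2 ^ k) → ℕ)) {u : ℕ → ℝ}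
    (hu : ∀ᶠ k in atTop, 0 < u k ∧ (model p (2 ^ k)).real (E k) ≤ Real.exp (-u k))
    (hs : Summable fun k => (d k + 1) / u k) : ∀ᵐ ω ∂μ, ∀ᶠ k in atTop, block r k ω ∉ E k := by
  have hP : ∀ᶠ k in atTop, μ.real {ω | block r k ω ∈ E k} ≤ (d k + 1) / u k := by
    filter_upwards [hD, hu] with k h1 h2
    have hmp := model_prob hp (2 ^ k)
    have hb := block_meas hr k
    have hρ : IsProbabilityMeasure (μ.map (block r k)) := Measure.isProbabilityMeasure_map hb.aemeasurable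
    have h3 := ent_event' (μ.map (block r k)) (model p (2 ^ k)) (meas (E k)) h2.2 (hd k) h1
    rw [map_measureReal_apply hb (meas (E k))] at h3
    rw [le_div_iff₀ h2.1, mul_comm]
    exact h3
  have hs2 : Summable fun k => μ.real {ω | block r k ω ∈ E k} := by
    obtain ⟨K, hK⟩ := eventually_atTop.1 hP
    rw [← summable_nat_add_iff K]
    exact Summable.of_nonneg_of_le (fun k => measureReal_nonneg) (fun k => hK (k + K) (Nat.le_add_left _ _))
      ((summable_nat_add_iff K).2 hs)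
  have hfin : ∑' k, μ {ω | block r k ω ∈ E k} ≠ ⊤ := by
    have h4 : ∀ k, μ {ω | block r k ω ∈ E k} = ENNReal.ofReal (μ.real {ω | block r k ω ∈ E k}) := fun k =>
      (ofReal_measureReal (measure_ne_top _ _)).symm
    simp only [h4]
    rw [← ENNReal.ofReal_tsum_of_nonneg (fun k => measureReal_nonneg) hs2]
    exact ENNReal.ofReal_ne_top
  exact ae_eventually_notMem hfin

/-! ### independent blocks with given laws -/

/-- the rank number `n` -/
def rk (ω : ∀ k : ℕ, Fin (2 ^ k) → ℕ) (l m : ℕ) : ℕ := if h : m < 2 ^ l then ω l ⟨m, h⟩ else 0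

theorem blocks (ρ : ∀ k : ℕ, Measure (Fin (2 ^ k) → ℕ)) (hρ : ∀ k, IsProbabilityMeasure (ρ k))
    (E : ∀ k, Set (Fin (2 ^ k) → ℕ)) (hs : ¬ Summable fun k => (ρ k).real (E k)) :
    ∃ (Ω : Type) (_ : MeasurableSpace Ω) (μ : Measure Ω) (_ : IsProbabilityMeasure μ) (r : ℕ → Ω → ℕ),
      (∀ n, Measurable (r n)) ∧ (∀ k, μ.map (block r k) = ρ k) ∧ ∀ᵐ ω ∂μ, ∃ᶠ k in atTop, block r k ω ∈ E k := by
  set r : ℕ → (∀ k : ℕ, Fin (2 ^ k) → ℕ) → ℕ := fun n ω => rk ω (Nat.log 2 n) (n - 2 ^ Nat.log 2 n) with hr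
  have hblock : ∀ k ω, block r k ω = ω k := by
    intro k ω
    funext i
    have hlog : Nat.log 2 (2 ^ k + i) = k := by
      rw [Nat.log_eq_iff (Or.inr ⟨by norm_num, by positivity⟩)]
      refine ⟨Nat.le_add_right _ _, ?_⟩
      rw [pow_succ]
      have := i.2
      omega
    have h1 : rk ω (Nat.log 2 (2 ^ k + i)) (2 ^ k + i - 2 ^ Nat.log 2 (2 ^ k + i)) = rk ω k (2 ^ k + i - 2 ^ k) := by
      rw [hlog]
    show rk ω (Nat.log 2 (2 ^ k + i)) (2 ^ k + i - 2 ^ Nat.log 2 (2 ^ k + i)) = ω k i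
    rw [h1, Nat.add_sub_cancel_left]
    simp only [rk, i.2, dif_pos]
  have hmap : ∀ k, (Measure.infinitePi ρ).map (block r k) = ρ k := fun k => by
    have : block r k = fun ω => ω k := funext (hblock k)
    rw [this]
    exact Measure.infinitePi_map_eval ρ k
  have hmr : ∀ n, Measurable (r n) := by
    intro n
    simp only [hr, rk]
    by_cases h : n - 2 ^ Nat.log 2 n < 2 ^ Nat.log 2 n
    · simp only [h, dif_pos]
      exact (measurable_pi_apply _).comp (measurable_pi_apply _)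
    · simp only [h, dif_neg, not_false_eq_true]
      exact measurable_const
  refine ⟨∀ k : ℕ, Fin (2 ^ k) → ℕ, inferInstance, Measure.infinitePi ρ, inferInstance, r, hmr, hmap, ?_⟩
  set S : ℕ → Set (∀ k : ℕ, Fin (2 ^ k) → ℕ) := fun k => (fun ω => ω k) ⁻¹' (E k) with hS
  have hSm : ∀ k, MeasurableSet (S k) := fun k => measurable_pi_apply k (meas (E k))
  have hind : iIndepSet S (Measure.infinitePi ρ) := by
    rw [iIndepSet_iff_meas_biInter hSm]
    intro T
    exact (iIndepFun_infinitePi (P := ρ) (X := fun _ x => x)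
      (fun _ => measurable_id)).measure_inter_preimage_eq_mul T (fun k _ => meas (E k))
  have hSr : ∀ k, (Measure.infinitePi ρ) (S k) = ρ k (E k) := fun k => by
    have h := Measure.infinitePi_map_eval ρ k
    rw [← h, Measure.map_apply (measurable_pi_apply k) (meas (E k))]
  have h2 : ∑' k, (Measure.infinitePi ρ) (S k) = ⊤ := by
    by_contra hne
    apply hs
    have h3 := ENNReal.summable_toReal hne
    refine h3.congr fun k => ?_
    rw [hSr k]
    rfl
  have h3 := measure_limsup_eq_one hSm hind h2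
  have h4 : MeasurableSet (limsup S atTop) := MeasurableSet.measurableSet_limsup hSm
  have h5 : ∀ᵐ ω ∂(Measure.infinitePi ρ), ω ∈ limsup S atTop := by
    rw [← prob_compl_eq_zero_iff h4] at h3
    exact h3
  filter_upwards [h5] with ω hω
  rw [mem_limsup_iff_frequently_mem] at hω
  refine hω.mono fun k hk => ?_
  rw [hblock]
  exact hk

end

end Pool.Agent.Q197.ML
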