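import Pool.Agent.Q197.ML.Blocks

/-!
# Project ML, module Bud: the exact entropy budgets of the moments and of the law of the rank
-/

set_option autoImplicit false

open MeasureTheory ProbabilityTheory Filter Asymptotics InformationTheory
open scoped ENNReal Topology

namespace Pool.Agent.Q197.ML

noncomputable section

variable {p : ℕ} (hp : 2 ≤ p)

theorem log_two_pow (k : ℕ) : Real.log ((2 ^ k : ℕ) : ℝ) = k * Real.log 2 := by
  push_cast
  rw [Real.log_pow]

theorem summable_sq (c : ℝ) : Summable fun k : ℕ => c / (k : ℝ) ^ 2 := by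
  have h := (Real.summable_one_div_nat_pow (p := 2)).2 (by norm_num)
  refine (h.mul_left c).congr fun k => ?_
  ring

include hp in
/-- **all moments for summable budgets** -/
theorem moments_of_summable {d : ℕ → ℝ} (hd : ∀ k, 0 ≤ d k) (hs : Summable fun k : ℕ => d k / (k : ℝ) ^ 2)
    {Ω : Type} [MeasurableSpace Ω] {μ : Measure Ω} [IsProbabilityMeasure μ] {r : ℕ → Ω → ℕ}
    (hr : ∀ n, Measurable (r n)) (hD : ∀ᶠ k in atTop, relEnt p μ r k ≤ ENNReal.ofReal (d k)) :
    ∀ᵐ ω ∂μ, ∀ s : ℕ, 1 ≤ s →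
      Tendsto (fun N => mean (fun x => (sur p s x : ℝ)) (fun n => r n ω) N) atTop (𝓝 1) := by
  rw [ae_all_iff]
  intro s
  by_cases hs1 : 1 ≤ s
  swap
  · exact Eventually.of_forall fun ω h => absurd h hs1
  have key : ∀ᵐ ω ∂μ, ∀ e : ℕ, ∀ᶠ k in atTop,
      block r k ω ∉ Dv (fun x => (sur p s x : ℝ)) 1 (2 ^ k) (1 / ((e : ℝ) + 1)) := by
    rw [ae_all_iff]
    intro e
    have h1 := model_dev hp hs1 (ε := 1 / ((e : ℝ) + 1)) (by positivity) (η := 1 / 2) (by norm_num) (by norm_num)
    have h2 := (tendsto_pow_atTop_atTop_of_one_lt (by norm_num : 1 < 2)).eventually h1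
    have hl2 : 0 < Real.log 2 := Real.log_pos (by norm_num)
    have hκ := uu_const hp hs1
    set κ := (s : ℝ) ^ 2 * Real.log p with hκd
    refine ae_good hp hr hd hD (fun k => Dv (fun x => (sur p s x : ℝ)) 1 (2 ^ k) (1 / ((e : ℝ) + 1)))
      (u := fun k => (1 - 1 / 2) * uu p s (2 ^ k)) ?_ ?_
    · filter_upwards [h2, eventually_ge_atTop 1] with k hk hk1
      refine ⟨?_, hk⟩
      unfold uu
      rw [log_two_pow]
      have : (0 : ℝ) < k := by exact_mod_cast hk1
      positivity
    · have h3 : Summable fun k : ℕ => (2 * κ / Real.log 2 ^ 2) * (d k / (k : ℝ) ^ 2 + 1 / (k : ℝ) ^ 2) :=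
        (hs.add (summable_sq 1)).mul_left _
      refine h3.congr fun k => ?_
      unfold uu
      rw [log_two_pow]
      rcases Nat.eq_zero_or_pos k with rfl | hk
      · simp
      · have : (0 : ℝ) < k := by exact_mod_cast hk
        field_simp
        ring
  filter_upwards [key] with ω hω _
  exact mean_tendsto r _ 1 ω hω

/-- `min 1 (d k / c k)` is not summable if `d k / c k` is not -/
theorem min_not_summable {a : ℕ → ℝ} (ha : ∀ k, 0 ≤ a k) (h : ¬ Summable a) : ¬ Summable fun k => min 1 (a k) := by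
  intro hs
  apply h
  have h1 := hs.tendsto_atTop_zero
  have h2 : ∀ᶠ k in atTop, min 1 (a k) < 1 := h1.eventually (gt_mem_nhds one_pos)
  obtain ⟨K, hK⟩ := eventually_atTop.1 h2
  rw [← summable_nat_add_iff K]
  refine ((summable_nat_add_iff K).2 hs).congr fun k => ?_
  have h3 := hK (k + K) (Nat.le_add_left _ _)
  rcases min_lt_iff.1 h3 with h4 | h4
  · exact absurd h4 (lt_irrefl _)
  · exact min_eq_right h4.le

/-- the first rank of the block is `m` -/
def first (k m : ℕ) : Set (Fin (2 ^ k) → ℕ) := {x | x ⟨0, Nat.two_pow_pos k⟩ = m}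

include hp in
theorem first_real (k m : ℕ) : (model p (2 ^ k)).real (first k m) = (clLaw p).real {m} := by
  have := clLaw_prob hp
  have h := (measurePreserving_eval (fun _ : Fin (2 ^ k) => clLaw p) ⟨0, Nat.two_pow_pos k⟩).measure_preimage
    (s := {m}) (MeasurableSet.of_discrete.nullMeasurableSet)
  rw [measureReal_def, measureReal_def, ← h]
  rfl

include hp in
theorem cost_sq : ∃ C : ℝ, 0 < C ∧ ∀ k : ℕ, 1 ≤ k →
    Real.log (1 / (clLaw p).real {bad p 1 (2 * (k * Real.log 2))}) ≤ C * (k : ℝ) ^ 2 := by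
  have ha := logp_pos hp
  have hl2 : 0 < Real.log 2 := Real.log_pos (by norm_num)
  set a := Real.log p with haa
  refine ⟨a * (2 * Real.log 2 / a + 2) ^ 2 + Real.log 32, ?_, fun k hk => ?_⟩
  · have := Real.log_pos (by norm_num : (1 : ℝ) < 32)
    positivity
  have hk1 : (1 : ℝ) ≤ k := by exact_mod_cast hk
  set m := bad p 1 (2 * (k * Real.log 2)) with hm
  have h1 : (m : ℝ) ≤ (2 * Real.log 2 / a + 2) * k := by
    have h2 := bad_le hp (s := 1) le_rfl (y := 2 * (k * Real.log 2)) (by positivity)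
    rw [← haa] at h2
    refine h2.trans ?_
    have h3 : 2 * ((k : ℝ) * Real.log 2) / ((1 : ℕ) * a) + ((1 : ℕ) + 1) = 2 * Real.log 2 / a * k + 2 := by
      push_cast
      ring
    rw [h3]
    linarith
  have hat := cl_atom hp m
  rw [← haa] at hat
  have hpos : 0 < (clLaw p).real {m} := (Real.exp_pos _).trans_le hat
  rw [one_div, Real.log_inv]
  have h2 : -(a * (m : ℝ) ^ 2) - Real.log 32 ≤ Real.log ((clLaw p).real {m}) := by
    rw [Real.le_log_iff_exp_le hpos]
    exact hat
  have h3 : (m : ℝ) ^ 2 ≤ ((2 * Real.log 2 / a + 2) * k) ^ 2 := pow_le_pow_left₀ (Nat.cast_nonneg _) h1 2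
  have h4 := mul_le_mul_of_nonneg_left h3 ha.le
  have h5 : Real.log 32 ≤ Real.log 32 * (k : ℝ) ^ 2 :=
    le_mul_of_one_le_right (Real.log_nonneg (by norm_num)) (one_le_pow₀ hk1)
  have h6 : a * ((2 * Real.log 2 / a + 2) * k) ^ 2 = a * (2 * Real.log 2 / a + 2) ^ 2 * (k : ℝ) ^ 2 := by ring
  linarith

include hp in
/-- **unbounded moments for budgets which are not summable** -/
theorem moments_of_not_summable {d : ℕ → ℝ} (hd : ∀ k, 0 ≤ d k) (hs : ¬ Summable fun k : ℕ => d k / (k : ℝ) ^ 2) :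
    ∃ (Ω : Type) (_ : MeasurableSpace Ω) (μ : Measure Ω) (_ : IsProbabilityMeasure μ) (r : ℕ → Ω → ℕ),
      (∀ n, Measurable (r n)) ∧ (∀ k, relEnt p μ r k ≤ ENNReal.ofReal (d k)) ∧
      ∀ᵐ ω ∂μ, ∀ s : ℕ, 1 ≤ s → ∀ A : ℝ, ∃ᶠ N in atTop, A ≤ mean (fun x => (sur p s x : ℝ)) (fun n => r n ω) N := by
  have hcl := clLaw_prob hp
  obtain ⟨C, hC0, hC⟩ := cost_sq hp
  set m : ℕ → ℕ := fun k => bad p 1 (2 * (k * Real.log 2)) with hm
  set q : ℕ → ℝ := fun k => min 1 (d k / (k : ℝ) ^ 2 / C) with hq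
  have hq0 : ∀ k, 0 ≤ q k := fun k => le_min zero_le_one (div_nonneg (div_nonneg (hd k) (sq_nonneg _)) hC0.le)
  have hq1 : ∀ k, q k ≤ 1 := fun k => min_le_left _ _
  have hpos : ∀ k, 0 < (model p (2 ^ k)).real (first k (m k)) := fun k => by
    rw [first_real hp]
    exact (Real.exp_pos _).trans_le (cl_atom hp _)
  have hmp : ∀ N, IsProbabilityMeasure (model p N) := model_prob hp
  set ρ : ∀ k : ℕ, Measure (Fin (2 ^ k) → ℕ) := fun k => mix (model p (2 ^ k)) (first k (m k)) (q k) with hρd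
  have hρ : ∀ k, IsProbabilityMeasure (ρ k) := fun k => mix_prob _ (meas _) (hpos k) (hq0 k) (hq1 k)
  have hns : ¬ Summable fun k => (ρ k).real (first k (m k)) := by
    intro h
    have h1 : ¬ Summable q := by
      refine min_not_summable (fun k => div_nonneg (div_nonneg (hd k) (sq_nonneg _)) hC0.le) fun h2 => hs ?_
      refine (h2.mul_left C).congr fun k => ?_
      field_simp
    exact h1 (Summable.of_nonneg_of_le hq0
      (fun k => mix_ge _ (meas _) (hpos k) (hq0 k) (hq1 k) (meas _) le_rfl) h)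
  obtain ⟨Ω, mΩ, μ, hμ, r, hr, hmap, hae⟩ := blocks ρ hρ (fun k => first k (m k)) hns
  refine ⟨Ω, mΩ, μ, hμ, r, hr, fun k => ?_, ?_⟩
  · unfold relEnt
    rw [hmap k]
    refine (mix_kl _ (meas _) (hpos k) (hq0 k) (hq1 k)).trans (ENNReal.ofReal_le_ofReal ?_)
    rw [first_real hp]
    rcases Nat.eq_zero_or_pos k with rfl | hk
    · have : q 0 = 0 := by simp [hq]
      rw [this, zero_mul]
      exact hd 0
    · have hk1 : (0 : ℝ) < k := by exact_mod_cast hk
      calc q k * Real.log (1 / (clLaw p).real {m k}) ≤ q k * (C * (k : ℝ) ^ 2) :=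
            mul_le_mul_of_nonneg_left (hC k hk) (hq0 k)
        _ ≤ d k / (k : ℝ) ^ 2 / C * (C * (k : ℝ) ^ 2) :=
            mul_le_mul_of_nonneg_right (min_le_right _ _) (by positivity)
        _ = d k := by field_simp
  · filter_upwards [hae] with ω hω s hs1 A
    -- large `k`
    have ha := logp_pos hp
    have hl2 : 0 < Real.log 2 := Real.log_pos (by norm_num)
    have hp0 : (0 : ℝ) < p := by exact_mod_cast (by omega : 0 < p)
    have hp1 : (1 : ℝ) ≤ p := by exact_mod_cast (by omega : 1 ≤ p)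
    have hmk : ∀ k : ℕ, 2 * ((k : ℝ) * Real.log 2) / Real.log p ≤ m k := by
      intro k
      simp only [hm, bad]
      push_cast
      have := Nat.le_ceil (2 * ((k : ℝ) * Real.log 2) / (1 * Real.log p))
      rw [one_mul] at this ⊢
      linarith
    have hms : ∀ᶠ k : ℕ in atTop, s ≤ m k := by
      filter_upwards [eventually_ge_atTop (⌈(s : ℝ) * Real.log p / (2 * Real.log 2)⌉₊)] with k hk
      have h1 : (s : ℝ) * Real.log p / (2 * Real.log 2) ≤ k := Nat.ceil_le.1 hk
      rw [div_le_iff₀ (by positivity)] at h1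
      have h2 : (s : ℝ) ≤ 2 * ((k : ℝ) * Real.log 2) / Real.log p := by
        rw [le_div_iff₀ ha]
        linarith
      exact_mod_cast h2.trans (hmk k)
    have hA : ∀ᶠ k : ℕ in atTop, A ≤ (2 : ℝ) ^ k / 4 := by
      have := (tendsto_pow_atTop_atTop_of_one_lt (by norm_num : (1 : ℝ) < 2)).eventually (eventually_ge_atTop (4 * A))
      filter_upwards [this] with k hk
      linarith
    have hfr : ∃ᶠ k in atTop, A ≤ mean (fun x => (sur p s x : ℝ)) (fun n => r n ω) (2 ^ k) := by
      refine (hω.and_eventually (hms.and hA)).mono ?_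
      rintro k ⟨h1, h2, h3⟩
      have h4 : r (2 ^ k) ω = m k := h1
      refine h3.trans ?_
      unfold mean
      have h5 : (sur p s (m k) : ℝ) ≤ ∑ n ∈ Finset.Icc 1 (2 ^ k), (sur p s (r n ω) : ℝ) := by
        rw [← h4]
        exact Finset.single_le_sum (f := fun n => (sur p s (r n ω) : ℝ)) (fun i _ => Nat.cast_nonneg _)
          (Finset.mem_Icc.2 ⟨Nat.one_le_two_pow, le_rfl⟩)
      have h6 := sur_ge hp h2
      have h7 : (2 : ℝ) ^ k * 2 ^ k ≤ (p : ℝ) ^ (m k * s) := by
        rw [← Real.exp_log (pow_pos hp0 _), Real.log_pow]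
        have h8 := hmk k
        rw [div_le_iff₀ ha] at h8
        have h9 : (2 : ℝ) ^ k * 2 ^ k = Real.exp (2 * (k * Real.log 2)) := by
          rw [two_mul, Real.exp_add, ← Real.log_pow, Real.exp_log (by positivity)]
        rw [h9]
        refine Real.exp_le_exp.2 (h8.trans ?_)
        push_cast
        have h10 : (1 : ℝ) ≤ s := by exact_mod_cast hs1
        have h11 : 0 ≤ (m k : ℝ) * Real.log p := by positivity
        nlinarith
      push_cast
      rw [div_le_div_iff₀ (by norm_num) (by positivity)]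
      linarith
    exact (tendsto_pow_atTop_atTop_of_one_lt (by norm_num : 1 < 2)).frequently hfr

end

end Pool.Agent.Q197.ML
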