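import Mathlib

/-!
# Project ML, module Ent: two facts on relative entropy

`klDiv ρ π` is the relative entropy in nats.  `ent_event`: an event of probability at most `exp (-u)` under `π` has
probability at most `(1 + klDiv ρ π) / u` under `ρ`.  `mix_kl`: the mixture of `π` and of `π` conditioned on `A`, with
weights `1 - q` and `q`, has relative entropy at most `q log (1 / π A)` with respect to `π`.
-/

set_option autoImplicit false

open MeasureTheory ProbabilityTheory InformationTheory
open scoped ENNReal NNReal

namespace Pool.Agent.Q197.ML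

theorem klFun_ge {t : ℝ} (ht : 0 ≤ t) (s : ℝ) : t * s + 1 - Real.exp s ≤ klFun t := by
  rcases ht.eq_or_lt with rfl | ht
  · rw [klFun_zero]
    have := Real.exp_pos s
    linarith
  · rw [klFun_apply]
    have h1 := Real.add_one_le_exp (s - Real.log t)
    have h2 : t * Real.exp (s - Real.log t) = Real.exp s := by
      rw [Real.exp_sub, Real.exp_log ht]
      field_simp
    have h3 := mul_le_mul_of_nonneg_left h1 ht.le
    rw [h2] at h3
    linarith

theorem ofReal_integral_le {α : Type*} [MeasurableSpace α] {γ : Measure α} {g : α → ℝ}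
    (hg : Integrable g γ) : ENNReal.ofReal (∫ x, g x ∂γ) ≤ ∫⁻ x, ENNReal.ofReal (g x) ∂γ := by
  rw [integral_eq_lintegral_pos_part_sub_lintegral_neg_part hg]
  calc ENNReal.ofReal ((∫⁻ x, ENNReal.ofReal (g x) ∂γ).toReal -
        (∫⁻ x, ENNReal.ofReal (-g x) ∂γ).toReal) ≤
      ENNReal.ofReal (∫⁻ x, ENNReal.ofReal (g x) ∂γ).toReal :=
        ENNReal.ofReal_le_ofReal (sub_le_self _ ENNReal.toReal_nonneg)
    _ ≤ _ := ENNReal.ofReal_toReal_le

theorem dge {X : Type*} [MeasurableSpace X] (ρ π : Measure X) [IsProbabilityMeasure ρ] [IsProbabilityMeasure π]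
    {A : Set X} (hA : MeasurableSet A) (l : ℝ) :
    ENNReal.ofReal (l * ρ.real A - (Real.exp l - 1) * π.real A) ≤ klDiv ρ π := by
  by_cases hac : ρ ≪ π
  · rw [klDiv_eq_lintegral_klFun_of_ac hac]
    set h : X → ℝ := fun x => (ρ.rnDeriv π x).toReal with hh
    have hint : Integrable h π := Measure.integrable_toReal_rnDeriv
    set g : X → ℝ := fun x => A.indicator (fun x => h x * l + 1 - Real.exp l) x with hg
    have hgi : Integrable g π := by
      have h1 : Integrable (fun x => h x * l + 1 - Real.exp l) π :=
        ((hint.mul_const l).add (integrable_const 1)).sub (integrable_const _)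
      exact h1.indicator hA
    have hgI : ∫ x, g x ∂π = l * ρ.real A - (Real.exp l - 1) * π.real A := by
      rw [hg, integral_indicator hA]
      have h1 : ∫ x in A, h x ∂π = ρ.real A := Measure.setIntegral_toReal_rnDeriv hac A
      have h2 : (fun x => h x * l + 1 - Real.exp l) = fun x => h x * l + (1 - Real.exp l) := by
        funext x
        ring
      rw [h2, integral_add (hint.integrableOn.mul_const l) (integrable_const _), integral_mul_const,
        h1, setIntegral_const, smul_eq_mul]
      ring
    rw [← hgI]
    refine (ofReal_integral_le hgi).trans (lintegral_mono fun x => ENNReal.ofReal_le_ofReal ?_)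
    show A.indicator (fun x => h x * l + 1 - Real.exp l) x ≤ klFun (h x)
    have hx : 0 ≤ h x := ENNReal.toReal_nonneg
    by_cases hxA : x ∈ A
    · rw [Set.indicator_of_mem hxA]
      exact klFun_ge hx l
    · rw [Set.indicator_of_notMem hxA]
      exact klFun_nonneg hx
  · rw [klDiv_of_not_ac hac]
    exact le_top

/-- An event which is very rare under `π` has probability at most `(1 + klDiv ρ π) / u` under `ρ`. -/
theorem ent_event {X : Type*} [MeasurableSpace X] (ρ π : Measure X) [IsProbabilityMeasure ρ] [IsProbabilityMeasure π]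
    {A : Set X} (hA : MeasurableSet A) {u : ℝ} (h : π.real A ≤ Real.exp (-u)) :
    ENNReal.ofReal (u * ρ.real A - 1) ≤ klDiv ρ π := by
  refine (ENNReal.ofReal_le_ofReal ?_).trans (dge ρ π hA u)
  have h0 : 0 ≤ π.real A := measureReal_nonneg
  have h1 : (Real.exp u - 1) * π.real A ≤ 1 := by
    rcases le_total (Real.exp u) 1 with hu | hu
    · nlinarith
    · calc (Real.exp u - 1) * π.real A ≤ (Real.exp u - 1) * Real.exp (-u) :=
            mul_le_mul_of_nonneg_left h (by linarith)
        _ = 1 - Real.exp (-u) := by
            rw [sub_mul, ← Real.exp_add, add_neg_cancel, Real.exp_zero, one_mul]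
        _ ≤ 1 := by
            have := Real.exp_pos (-u)
            linarith
  linarith

/-- the same with a finite bound for the relative entropy -/
theorem ent_event' {X : Type*} [MeasurableSpace X] (ρ π : Measure X) [IsProbabilityMeasure ρ] [IsProbabilityMeasure π]
    {A : Set X} (hA : MeasurableSet A) {u d : ℝ} (h : π.real A ≤ Real.exp (-u)) (hd : 0 ≤ d)
    (hk : klDiv ρ π ≤ ENNReal.ofReal d) : u * ρ.real A ≤ d + 1 := by
  have h1 := (ent_event ρ π hA h).trans hk
  have h2 := (ENNReal.ofReal_le_ofReal_iff hd).1 h1
  linarith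

/-- the density of the mixture -/
noncomputable def dens {X : Type*} [MeasurableSpace X] (π : Measure X) (A : Set X) (q : ℝ) (x : X) : ℝ :=
  1 - q + A.indicator (fun _ => q / π.real A) x

/-- the mixture of `π` and of `π` conditioned on `A` -/
noncomputable def mix {X : Type*} [MeasurableSpace X] (π : Measure X) (A : Set X) (q : ℝ) : Measure X :=
  π.withDensity fun x => ENNReal.ofReal (dens π A q x)

section

variable {X : Type*} [MeasurableSpace X] (π : Measure X) [IsProbabilityMeasure π] {A : Set X} (hA : MeasurableSet A)
  (hpos : 0 < π.real A) {q : ℝ} (hq0 : 0 ≤ q) (hq1 : q ≤ 1)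

include hA in
theorem dens_meas : Measurable (dens π A q) := by
  unfold dens
  exact measurable_const.add (measurable_const.indicator hA)

include hq0 hq1 in
theorem dens_nonneg (x : X) : 0 ≤ dens π A q x := by
  unfold dens
  have : 0 ≤ A.indicator (fun _ => q / π.real A) x :=
    Set.indicator_nonneg (fun _ _ => div_nonneg hq0 measureReal_nonneg) x
  linarith

include hA in
theorem dens_int : Integrable (dens π A q) π := by
  unfold dens
  exact (integrable_const _).add ((integrable_const _).indicator hA)

include hA hpos hq0 hq1 in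
theorem mix_real {E : Set X} (hE : MeasurableSet E) :
    (mix π A q).real E = (1 - q) * π.real E + q * (π.real (E ∩ A) / π.real A) := by
  unfold mix
  rw [measureReal_def, withDensity_apply _ hE, ← ofReal_integral_eq_lintegral_ofReal
    (dens_int π hA).integrableOn (Filter.Eventually.of_forall (dens_nonneg π hq0 hq1)),
    ENNReal.toReal_ofReal (integral_nonneg (dens_nonneg π hq0 hq1))]
  unfold dens
  rw [integral_add (integrable_const _) (((integrable_const _).indicator hA)), setIntegral_const,
    setIntegral_indicator hA, setIntegral_const, smul_eq_mul, smul_eq_mul]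
  ring

include hA hpos hq0 hq1 in
theorem mix_prob : IsProbabilityMeasure (mix π A q) := by
  have h := mix_real π hA hpos hq0 hq1 MeasurableSet.univ
  rw [Set.univ_inter, div_self hpos.ne', probReal_univ (μ := π)] at h
  have h1 : (mix π A q).real Set.univ = 1 := by rw [h]; ring
  rw [measureReal_def] at h1
  refine ⟨?_⟩
  have h2 : (mix π A q) Set.univ ≠ ⊤ := by
    intro ht
    rw [ht] at h1
    simp at h1
  rw [← ENNReal.ofReal_toReal h2, h1, ENNReal.ofReal_one]

include hA hpos hq0 hq1 in
theorem mix_ge {E : Set X} (hE : MeasurableSet E) (hAE : A ⊆ E) : q ≤ (mix π A q).real E := by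
  rw [mix_real π hA hpos hq0 hq1 hE, Set.inter_eq_right.2 hAE, div_self hpos.ne']
  have : 0 ≤ (1 - q) * π.real E := mul_nonneg (by linarith) measureReal_nonneg
  linarith

include hA hpos hq0 hq1 in
theorem mix_kl : klDiv (mix π A q) π ≤ ENNReal.ofReal (q * Real.log (1 / π.real A)) := by
  have := mix_prob π hA hpos hq0 hq1
  have hac : mix π A q ≪ π := withDensity_absolutelyContinuous _ _
  rw [klDiv_eq_lintegral_klFun_of_ac hac]
  have hrn : (mix π A q).rnDeriv π =ᵐ[π] fun x => ENNReal.ofReal (dens π A q x) := by
    unfold mix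
    exact Measure.rnDeriv_withDensity _ (dens_meas π hA).ennreal_ofReal
  have e1 : ∫⁻ x, ENNReal.ofReal (klFun ((mix π A q).rnDeriv π x).toReal) ∂π =
      ∫⁻ x, ENNReal.ofReal (klFun (dens π A q x)) ∂π := by
    refine lintegral_congr_ae ?_
    filter_upwards [hrn] with x hx
    rw [hx, ENNReal.toReal_ofReal (dens_nonneg π hq0 hq1 x)]
  rw [e1]
  -- convexity
  set α := π.real A with hα
  have hα1 : α ≤ 1 := by rw [hα]; exact measureReal_le_one
  have hle : ∀ x, klFun (dens π A q x) ≤ q * (A.indicator (fun _ => klFun (1 / α)) x +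
      Aᶜ.indicator (fun _ => (1 : ℝ)) x) := by
    intro x
    have hc := convexOn_klFun.2
    by_cases hx : x ∈ A
    · have h1 : dens π A q x = (1 - q) • (1 : ℝ) + q • (1 / α) := by
        unfold dens
        rw [Set.indicator_of_mem hx, smul_eq_mul, smul_eq_mul, ← hα]
        ring
      rw [h1, Set.indicator_of_mem hx, Set.indicator_of_notMem (by simpa using hx)]
      have h2 := hc (x := (1 : ℝ)) (by simp) (y := 1 / α) (Set.mem_Ici.2 (by positivity))
        (a := 1 - q) (b := q) (by linarith) hq0 (by ring)
      simp only [klFun_one, smul_eq_mul, mul_zero, zero_add] at h2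
      simp only [smul_eq_mul, add_zero]
      exact h2
    · have h1 : dens π A q x = (1 - q) • (1 : ℝ) + q • 0 := by
        unfold dens
        rw [Set.indicator_of_notMem hx, smul_eq_mul, smul_eq_mul]
        ring
      rw [h1, Set.indicator_of_notMem hx, Set.indicator_of_mem (by simpa using hx)]
      have h2 := hc (x := (1 : ℝ)) (by simp) (y := 0) (by simp)
        (a := 1 - q) (b := q) (by linarith) hq0 (by ring)
      simp only [klFun_one, smul_eq_mul, mul_zero, zero_add, klFun_zero] at h2
      simp only [smul_eq_mul, mul_zero, zero_add]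
      exact h2
  have hnn : ∀ x, 0 ≤ klFun (dens π A q x) := fun x => klFun_nonneg (dens_nonneg π hq0 hq1 x)
  refine (lintegral_mono fun x => ENNReal.ofReal_le_ofReal (hle x)).trans ?_
  have hi1 : Integrable (A.indicator (fun _ => klFun (1 / α))) π := (integrable_const _).indicator hA
  have hi2 : Integrable (Aᶜ.indicator (fun _ => (1 : ℝ))) π := (integrable_const _).indicator hA.compl
  have hi3 : Integrable (fun x => q * (A.indicator (fun _ => klFun (1 / α)) x +
      Aᶜ.indicator (fun _ => (1 : ℝ)) x)) π := (hi1.add hi2).const_mul q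
  rw [← ofReal_integral_eq_lintegral_ofReal hi3
    (Filter.Eventually.of_forall fun x => (hnn x).trans (hle x))]
  refine ENNReal.ofReal_le_ofReal ?_
  rw [integral_const_mul]
  refine mul_le_mul_of_nonneg_left ?_ hq0
  rw [integral_add hi1 hi2, integral_indicator hA, integral_indicator hA.compl, setIntegral_const,
    setIntegral_const, smul_eq_mul, smul_eq_mul, ← hα, probReal_compl_eq_one_sub hA, ← hα, klFun_apply]
  have : α * (1 / α * Real.log (1 / α) + 1 - 1 / α) + (1 - α) * 1 = Real.log (1 / α) := by
    field_simp
    ring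
  rw [this]

end

end Pool.Agent.Q197.ML
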