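import Pool.Agent.Q197.ML.Asy
import Pool.Agent.Q197.ML.Ent

/-!
# Project ML, module Price: the price of a deviation of the average number of surjections
-/

set_option autoImplicit false

open MeasureTheory Filter Asymptotics InformationTheory
open scoped ENNReal Topology

namespace Pool.Agent.Q197.ML

noncomputable section

/-- the law of `N` independent ranks -/
def model (p N : ℕ) : Measure (Fin N → ℕ) := Measure.pi fun _ => clLaw p

/-- the average number of surjections onto `(ℤ/p)^s` for `N` groups of ranks `x i` -/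
def average (p s : ℕ) {N : ℕ} (x : Fin N → ℕ) : ℝ := (∑ i, (sur p s (x i) : ℝ)) / N

variable {p s : ℕ} (hp : 2 ≤ p) (hs : 1 ≤ s)

theorem meas {N : ℕ} (E : Set (Fin N → ℕ)) : MeasurableSet E := MeasurableSet.of_discrete

include hp in
theorem model_prob (N : ℕ) : IsProbabilityMeasure (model p N) := by
  have := clLaw_prob hp
  unfold model
  infer_instance

theorem dev_sub {N : ℕ} (hN : 1 ≤ N) (ε : ℝ) :
    {x : Fin N → ℕ | ε < |average p s x - 1|} ⊆ Dv (fun r => (sur p s r : ℝ)) 1 N ε := by
  intro x hx
  refine ⟨N, le_rfl, ?_⟩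
  have hN0 : (0 : ℝ) < N := by exact_mod_cast hN
  have e : ps (fun r => (sur p s r : ℝ)) 1 x N = N * (average p s x - 1) := by
    unfold ps average
    have h1 : (Finset.univ.filter fun i : Fin N => (i : ℕ) < N) = Finset.univ :=
      Finset.filter_true_of_mem fun i _ => i.2
    rw [h1, Finset.sum_sub_distrib, Finset.sum_const, Finset.card_univ, Fintype.card_fin, nsmul_eq_mul, mul_one]
    field_simp
  rw [e, abs_mul, abs_of_pos hN0, mul_comm]
  exact mul_lt_mul_of_pos_left hx hN0

/-- the rank which spoils the average -/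
def bad (p s : ℕ) (y : ℝ) : ℕ := ⌈y / (s * Real.log p)⌉₊ + s

include hp hs in
theorem bad_ge {y : ℝ} : Real.exp y / 4 ≤ sur p s (bad p s y) := by
  have ha := logp_pos hp
  have hs0 : (0 : ℝ) < s := by exact_mod_cast hs
  have hp0 : (0 : ℝ) < p := by exact_mod_cast (by omega : 0 < p)
  refine le_trans ?_ (sur_ge hp (Nat.le_add_left s _ : s ≤ bad p s y))
  refine div_le_div_of_nonneg_right ?_ (by norm_num)
  rw [← Real.exp_log (pow_pos hp0 _), Real.log_pow]
  refine Real.exp_le_exp.2 ?_
  have h1 : y / (s * Real.log p) ≤ bad p s y := by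
    unfold bad
    push_cast
    have := Nat.le_ceil (y / (s * Real.log p))
    linarith
  rw [div_le_iff₀ (by positivity)] at h1
  push_cast
  linarith

include hp hs in
theorem bad_le {y : ℝ} (hy : 0 ≤ y) : (bad p s y : ℝ) ≤ y / (s * Real.log p) + (s + 1) := by
  have ha := logp_pos hp
  have hs0 : (0 : ℝ) < s := by exact_mod_cast hs
  unfold bad
  push_cast
  have := Nat.ceil_lt_add_one (show 0 ≤ y / (s * Real.log p) by positivity)
  linarith

include hp hs in
/-- the cost of one very large rank -/
theorem cost_le (K : ℝ) {η : ℝ} (hη : 0 < η) : ∀ᶠ N : ℕ in atTop,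
    Real.log (1 / (clLaw p).real {bad p s (Real.log N + K)}) ≤ (1 + η) * uu p s N := by
  have ha := logp_pos hp
  have hs0 : (0 : ℝ) < s := by exact_mod_cast hs
  have hκ0 := uu_const hp hs
  set a : ℝ := Real.log p with haa
  set L : ℝ := |K| / (s * a) + (s + 1) with hL
  have A1 := log_tendsto.eventually (lin_le_sq (A := 2 * L / s) (B := a * L ^ 2 + Real.log 32)
    (c := η / ((s : ℝ) ^ 2 * a)) (by positivity))
  filter_upwards [A1, log_tendsto.eventually (eventually_ge_atTop |K|), eventually_ge_atTop 1] with N a1 a2 hN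
  have hN1 : (1 : ℝ) ≤ N := by exact_mod_cast hN
  set x : ℝ := Real.log N with hx
  have hx0 : 0 ≤ x := Real.log_nonneg hN1
  have hy : 0 ≤ x + K := by linarith [neg_abs_le K]
  set m := bad p s (x + K) with hm
  have hm1 : (m : ℝ) ≤ x / (s * a) + L := by
    have h1 := bad_le hp hs hy
    rw [← haa] at h1
    refine h1.trans ?_
    rw [hL, add_div]
    have : K / (s * a) ≤ |K| / (s * a) := div_le_div_of_nonneg_right (le_abs_self K) (by positivity)
    linarith
  have hat := cl_atom hp m
  rw [← haa] at hat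
  have hpos : 0 < (clLaw p).real {m} := (Real.exp_pos _).trans_le hat
  rw [one_div, Real.log_inv]
  have h2 : -(a * (m : ℝ) ^ 2) - Real.log 32 ≤ Real.log ((clLaw p).real {m}) := by
    rw [Real.le_log_iff_exp_le hpos]
    exact hat
  have h3 : (m : ℝ) ^ 2 ≤ (x / (s * a) + L) ^ 2 := pow_le_pow_left₀ (Nat.cast_nonneg _) hm1 2
  have h4 : a * (x / (s * a) + L) ^ 2 = x ^ 2 / (s ^ 2 * a) + 2 * L / s * x + a * L ^ 2 := by
    field_simp
    ring
  have h5 := mul_le_mul_of_nonneg_left h3 ha.le
  have h6 : (1 + η) * uu p s N = x ^ 2 / (s ^ 2 * a) + η / (s ^ 2 * a) * x ^ 2 := by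
    unfold uu
    rw [← hx, ← haa]
    ring
  rw [h6]
  linarith

include hp hs in
/-- **the price of a deviation** -/
theorem price {ε : ℝ} (hε : 0 < ε) (A : ℝ) {η : ℝ} (hη : 0 < η) : ∀ᶠ N : ℕ in atTop,
    (∀ ρ : Measure (Fin N → ℕ), IsProbabilityMeasure ρ →
      ENNReal.ofReal ((ρ.real {x | ε < |average p s x - 1|} - η) * uu p s N) ≤ klDiv ρ (model p N)) ∧
    ∀ q : ℝ, 0 ≤ q → q ≤ 1 → ∃ ρ : Measure (Fin N → ℕ), IsProbabilityMeasure ρ ∧
      klDiv ρ (model p N) ≤ ENNReal.ofReal ((q + η) * uu p s N) ∧ q ≤ ρ.real {x | A ≤ average p s x} := by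
  have hcl := clLaw_prob hp
  have hκ0 := uu_const hp hs
  have hη2 : 0 < min (η / 2) 1 := lt_min (by linarith) one_pos
  have A1 := model_dev hp hs hε hη2 (min_le_right _ _)
  have A2 := cost_le hp hs (Real.log (4 * (|A| + 1))) hη
  have A3 := log_tendsto.eventually (lin_le_sq (A := 0) (B := 1) (c := η / 2 / ((s : ℝ) ^ 2 * Real.log p)) (by positivity))
  filter_upwards [A1, A2, A3, eventually_ge_atTop 1] with N a1 a2 a3 hN
  have hmp := model_prob hp N
  have hN0 : (0 : ℝ) < N := by exact_mod_cast hN
  have hu0 : 0 ≤ uu p s N := by unfold uu; positivity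
  constructor
  · intro ρ hρ
    have h1 : (model p N).real {x | ε < |average p s x - 1|} ≤ Real.exp (-((1 - min (η / 2) 1) * uu p s N)) :=
      (measureReal_mono (dev_sub hN ε)).trans a1
    refine (ENNReal.ofReal_le_ofReal ?_).trans (ent_event ρ (model p N) (meas _) h1)
    set t := ρ.real {x | ε < |average p s x - 1|} with ht
    have ht0 : 0 ≤ t := measureReal_nonneg
    have ht1 : t ≤ 1 := measureReal_le_one
    have h2 : 1 ≤ η / 2 * uu p s N := by
      unfold uu
      calc (1 : ℝ) ≤ η / 2 / ((s : ℝ) ^ 2 * Real.log p) * Real.log N ^ 2 := by linarith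
        _ = _ := by ring
    have h3 : min (η / 2) 1 * (uu p s N * t) ≤ η / 2 * uu p s N := by
      calc min (η / 2) 1 * (uu p s N * t) ≤ η / 2 * (uu p s N * 1) :=
            mul_le_mul (min_le_left _ _) (mul_le_mul_of_nonneg_left ht1 hu0) (mul_nonneg hu0 ht0) (by linarith)
        _ = _ := by ring
    nlinarith
  · intro q hq0 hq1
    set y : ℝ := Real.log N + Real.log (4 * (|A| + 1)) with hy
    set m := bad p s y with hm
    set i0 : Fin N := ⟨0, hN⟩ with hi0
    set B : Set (Fin N → ℕ) := {x | x i0 = m} with hB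
    have hBν : (model p N).real B = (clLaw p).real {m} := by
      have h := (measurePreserving_eval (fun _ : Fin N => clLaw p) i0).measure_preimage
        (s := {m}) (MeasurableSet.of_discrete.nullMeasurableSet)
      rw [measureReal_def, measureReal_def, ← h]
      rfl
    have hpos : 0 < (model p N).real B := by
      rw [hBν]
      exact (Real.exp_pos _).trans_le (cl_atom hp m)
    refine ⟨mix (model p N) B q, mix_prob _ (meas _) hpos hq0 hq1, ?_, ?_⟩
    · refine (mix_kl _ (meas _) hpos hq0 hq1).trans (ENNReal.ofReal_le_ofReal ?_)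
      rw [hBν]
      calc q * Real.log (1 / (clLaw p).real {m}) ≤ q * ((1 + η) * uu p s N) := mul_le_mul_of_nonneg_left a2 hq0
        _ ≤ (q + η) * uu p s N := by nlinarith [mul_nonneg hη.le hu0]
    · refine mix_ge _ (meas _) hpos hq0 hq1 (meas _) ?_
      intro x hx
      simp only [hB, Set.mem_setOf_eq] at hx ⊢
      unfold average
      rw [le_div_iff₀ hN0]
      have h1 : (sur p s (x i0) : ℝ) ≤ ∑ i, (sur p s (x i) : ℝ) :=
        Finset.single_le_sum (f := fun i => (sur p s (x i) : ℝ)) (fun i _ => Nat.cast_nonneg _) (Finset.mem_univ i0)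
      have h2 := bad_ge hp hs (y := y)
      rw [hx, hm] at h1
      have h3 : Real.exp y = N * (4 * (|A| + 1)) := by
        rw [hy, Real.exp_add, Real.exp_log hN0, Real.exp_log (by positivity)]
      rw [h3] at h2
      have h4 : A * N ≤ (|A| + 1) * N := mul_le_mul_of_nonneg_right (by linarith [le_abs_self A]) hN0.le
      linarith

include hp hs in
/-- the probability of a deviation under the model -/
theorem model_both {ε : ℝ} (hε : 0 < ε) (A : ℝ) {η : ℝ} (hη : 0 < η) : ∀ᶠ N : ℕ in atTop,
    (model p N).real {x | ε < |average p s x - 1|} ≤ Real.exp (-((1 - η) * uu p s N)) ∧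
    Real.exp (-((1 + η) * uu p s N)) ≤ (model p N).real {x | A ≤ average p s x} := by
  have hcl := clLaw_prob hp
  have hη2 : 0 < min η 1 := lt_min hη one_pos
  filter_upwards [model_dev hp hs hε hη2 (min_le_right _ _), cost_le hp hs (Real.log (4 * (|A| + 1))) hη,
    eventually_ge_atTop 1] with N a1 a2 hN
  have hmp := model_prob hp N
  have hN0 : (0 : ℝ) < N := by exact_mod_cast hN
  have hκ0 := uu_const hp hs
  have hu0 : 0 ≤ uu p s N := by unfold uu; positivity
  constructor
  · refine ((measureReal_mono (dev_sub hN ε)).trans a1).trans (Real.exp_le_exp.2 (neg_le_neg ?_))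
    exact mul_le_mul_of_nonneg_right (by linarith [min_le_left η 1]) hu0
  · set y : ℝ := Real.log N + Real.log (4 * (|A| + 1)) with hy
    set m := bad p s y with hm
    set i0 : Fin N := ⟨0, hN⟩ with hi0
    set B : Set (Fin N → ℕ) := {x | x i0 = m} with hB
    have hBν : (model p N).real B = (clLaw p).real {m} := by
      have h := (measurePreserving_eval (fun _ : Fin N => clLaw p) i0).measure_preimage
        (s := {m}) (MeasurableSet.of_discrete.nullMeasurableSet)
      rw [measureReal_def, measureReal_def, ← h]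
      rfl
    have hpos : 0 < (clLaw p).real {m} := (Real.exp_pos _).trans_le (cl_atom hp m)
    have hsub : B ⊆ {x | A ≤ average p s x} := by
      intro x hx
      simp only [hB, Set.mem_setOf_eq] at hx ⊢
      unfold average
      rw [le_div_iff₀ hN0]
      have h1 : (sur p s (x i0) : ℝ) ≤ ∑ i, (sur p s (x i) : ℝ) :=
        Finset.single_le_sum (f := fun i => (sur p s (x i) : ℝ)) (fun i _ => Nat.cast_nonneg _) (Finset.mem_univ i0)
      have h2 := bad_ge hp hs (y := y)
      rw [hx, hm] at h1
      have h3 : Real.exp y = N * (4 * (|A| + 1)) := by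
        rw [hy, Real.exp_add, Real.exp_log hN0, Real.exp_log (by positivity)]
      rw [h3] at h2
      have h4 : A * N ≤ (|A| + 1) * N := mul_le_mul_of_nonneg_right (by linarith [le_abs_self A]) hN0.le
      linarith
    refine le_trans ?_ (measureReal_mono hsub)
    rw [hBν, ← Real.le_log_iff_exp_le hpos]
    rw [one_div, Real.log_inv] at a2
    linarith

end

end Pool.Agent.Q197.ML
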