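import Pool.Agent.Q197.ML.Cl

/-!
# Project ML, module Sur: moments and tails of the Cohen-Lenstra law of the `p`-rank
-/

set_option autoImplicit false

open MeasureTheory Filter
open scoped ENNReal Topology

namespace Pool.Agent.Q197.ML

noncomputable section

variable {p : ℕ} (hp : 2 ≤ p)

theorem prod_shift (q : ℝ) (s j : ℕ) : (∏ i ∈ Finset.range s, (1 - q ^ (j + s - i))) * qp q j = qp q (j + s) := by
  induction s with
  | zero => simp
  | succ s ih =>
    rw [Finset.prod_range_succ', show j + (s + 1) = j + s + 1 by ring, qp_succ, ← ih]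
    have : ∀ i ∈ Finset.range s, (1 - q ^ (j + s + 1 - (i + 1))) = 1 - q ^ (j + s - i) := fun i _ => by
      rw [Nat.add_sub_add_right]
    rw [Finset.prod_congr rfl this, Nat.sub_zero]
    ring

theorem sur_zero {s r : ℕ} (h : r < s) : sur p s r = 0 :=
  Finset.prod_eq_zero (Finset.mem_range.2 h) (Nat.sub_self _)

include hp in
theorem sur_eq (s j : ℕ) : (sur p s (j + s) : ℝ) * qp (1 / (p : ℝ)) j =
    (p : ℝ) ^ (s * (j + s)) * qp (1 / (p : ℝ)) (j + s) := by
  have hp0 : (0 : ℝ) < p := by exact_mod_cast (by omega : 0 < p)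
  rw [← prod_shift, ← mul_assoc]
  congr 1
  unfold sur
  rw [Nat.cast_prod, mul_comm s, pow_mul, ← Finset.card_range s, ← Finset.prod_const, Finset.card_range,
    ← Finset.prod_mul_distrib]
  refine Finset.prod_congr rfl fun i hi => ?_
  rw [Finset.mem_range] at hi
  have h1 : p ^ i ≤ p ^ (j + s) := Nat.pow_le_pow_right (by omega) (by omega)
  rw [Nat.cast_sub h1, Nat.cast_pow, Nat.cast_pow, mul_sub, mul_one]
  congr 1
  rw [one_div, inv_pow, eq_mul_inv_iff_mul_eq₀ (pow_pos hp0 _).ne', ← pow_add]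
  congr 1
  omega

include hp in
theorem sur_le (s r : ℕ) : (sur p s r : ℝ) ≤ (p : ℝ) ^ (r * s) := by
  have : sur p s r ≤ p ^ (r * s) := by
    unfold sur
    calc ∏ i ∈ Finset.range s, (p ^ r - p ^ i) ≤ ∏ _i ∈ Finset.range s, p ^ r :=
          Finset.prod_le_prod' fun i _ => Nat.sub_le _ _
      _ = _ := by rw [Finset.prod_const, Finset.card_range, pow_mul]
  exact_mod_cast this

include hp in
theorem sur_ge {s r : ℕ} (h : s ≤ r) : (p : ℝ) ^ (r * s) / 4 ≤ sur p s r := by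
  obtain ⟨j, rfl⟩ := Nat.exists_eq_add_of_le' h
  have e := sur_eq hp s j
  have h1 := qp_ge' (q_pos hp) (q_le hp) (j + s)
  have h2 := qp_le (q_pos hp) (q_le hp) j
  have h3 := qp_pos (q_pos hp) (q_le hp) j
  have hp0 : (0 : ℝ) < p := by exact_mod_cast (by omega : 0 < p)
  have h4 : 0 < (p : ℝ) ^ ((j + s) * s) := pow_pos hp0 _
  have h5 : (0 : ℝ) ≤ sur p s (j + s) := Nat.cast_nonneg _
  rw [mul_comm s] at e
  nlinarith [mul_le_mul_of_nonneg_left h1 h4.le, mul_le_mul_of_nonneg_left h2 h5]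

include hp in
/-- the weight times the number of surjections -/
theorem nw_mul_sur (s j : ℕ) : nw p (j + s) * sur p s (j + s) =
    tt (1 / (p : ℝ)) s j / ∑' i, tt (1 / (p : ℝ)) 0 i := by
  have hp0 : (0 : ℝ) < p := by exact_mod_cast (by omega : 0 < p)
  have e := sur_eq hp s j
  have h3 := (qp_pos (q_pos hp) (q_le hp) j).ne'
  have h4 := (qp_pos (q_pos hp) (q_le hp) (j + s)).ne'
  unfold nw
  rw [tsum_cl, clWeight_eq, div_mul_eq_mul_div]
  congr 1
  have e2 : (sur p s (j + s) : ℝ) = (p : ℝ) ^ (s * (j + s)) * qp (1 / (p : ℝ)) (j + s) / qp (1 / (p : ℝ)) j := by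
    rw [eq_div_iff h3, e]
  rw [e2]
  unfold tt
  rw [add_zero, show j * (j + s) = (j + s) * (j + s) - s * (j + s) by
    rw [← Nat.sub_mul, Nat.add_sub_cancel]]
  have e3 : (1 / (p : ℝ)) ^ ((j + s) * (j + s)) * (p : ℝ) ^ (s * (j + s)) =
      (1 / (p : ℝ)) ^ ((j + s) * (j + s) - s * (j + s)) := by
    have h5 : (j + s) * (j + s) = ((j + s) * (j + s) - s * (j + s)) + s * (j + s) :=
      (Nat.sub_add_cancel (Nat.mul_le_mul_right _ (by omega))).symm
    conv_lhs => rw [h5, pow_add, mul_assoc, ← mul_pow, one_div, inv_mul_cancel₀ hp0.ne', one_pow, mul_one]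
    rw [one_div]
  rw [← e3]
  field_simp

include hp in
theorem sur_hasSum (s : ℕ) : HasSum (fun r => nw p r * sur p s r) 1 := by
  rw [← hasSum_nat_add_iff' s]
  have h0 : ∑ i ∈ Finset.range s, nw p i * (sur p s i : ℝ) = 0 :=
    Finset.sum_eq_zero fun i hi => by rw [sur_zero (Finset.mem_range.1 hi)]; simp
  rw [h0, sub_zero]
  simp only [nw_mul_sur hp]
  have h1 := (tt_summable (q_pos hp) (q_le hp) s).hasSum.div_const (∑' i, tt (1 / (p : ℝ)) 0 i)
  rw [tt_tsum (q_pos hp) (q_le hp) s, div_self (ne_of_gt (zero_lt_one.trans_le (tsum_ge (q_pos hp) (q_le hp))))] at h1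
  exact h1

include hp in
theorem sur_integrable (s : ℕ) : Integrable (fun r => (sur p s r : ℝ)) (clLaw p) := by
  rw [clLaw_eq]
  exact (law_int (nw_nonneg hp) (fun r => Nat.cast_nonneg _) (sur_hasSum hp s).summable).1

include hp in
/-- the moments of the Cohen-Lenstra law are one -/
theorem sur_mean (s : ℕ) : ∫ r, (sur p s r : ℝ) ∂(clLaw p) = 1 := by
  rw [clLaw_eq, (law_int (nw_nonneg hp) (fun r => Nat.cast_nonneg _) (sur_hasSum hp s).summable).2,
    (sur_hasSum hp s).tsum_eq]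

include hp in
theorem sur_sq_integrable (s : ℕ) : Integrable (fun r => (sur p s r : ℝ) ^ 2) (clLaw p) := by
  rw [clLaw_eq]
  refine (law_int (nw_nonneg hp) (fun r => sq_nonneg _) ?_).1
  -- p ^ (-r²) p ^ (2 r s) ≤ p ^ (2 s + 1)² p ^ (-r)
  have hp0 : (0 : ℝ) < p := by exact_mod_cast (by omega : 0 < p)
  have hp1 : (1 : ℝ) ≤ p := by exact_mod_cast (by omega : 1 ≤ p)
  have hg := (summable_geometric_of_lt_one (q_pos hp).le (lt_of_le_of_lt (q_le hp) (by norm_num))).mul_left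
    (16 * (p : ℝ) ^ ((2 * s + 1) ^ 2))
  refine Summable.of_nonneg_of_le (fun r => mul_nonneg (nw_nonneg hp r) (sq_nonneg _)) (fun r => ?_) hg
  have h1 := nw_le hp r
  have h2 : (sur p s r : ℝ) ^ 2 ≤ (p : ℝ) ^ (2 * (r * s)) := by
    calc (sur p s r : ℝ) ^ 2 ≤ ((p : ℝ) ^ (r * s)) ^ 2 := pow_le_pow_left₀ (Nat.cast_nonneg _) (sur_le hp s r) 2
      _ = _ := by rw [← pow_mul, mul_comm]
  have h3 : (1 / (p : ℝ)) ^ (r ^ 2) * (p : ℝ) ^ (2 * (r * s)) ≤ (p : ℝ) ^ ((2 * s + 1) ^ 2) * (1 / (p : ℝ)) ^ r := by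
    rw [one_div, inv_pow, inv_pow, inv_mul_eq_div, ← div_eq_mul_inv, div_le_div_iff₀ (pow_pos hp0 _) (pow_pos hp0 _),
      ← pow_add, ← pow_add]
    refine pow_le_pow_right₀ hp1 ?_
    rcases le_total r (2 * s + 1) with h | h
    · nlinarith
    · nlinarith
  calc nw p r * (sur p s r : ℝ) ^ 2 ≤ 16 * (1 / (p : ℝ)) ^ (r ^ 2) * (p : ℝ) ^ (2 * (r * s)) :=
        mul_le_mul h1 h2 (sq_nonneg _) (by positivity)
    _ = 16 * ((1 / (p : ℝ)) ^ (r ^ 2) * (p : ℝ) ^ (2 * (r * s))) := by ring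
    _ ≤ 16 * ((p : ℝ) ^ ((2 * s + 1) ^ 2) * (1 / (p : ℝ)) ^ r) := mul_le_mul_of_nonneg_left h3 (by norm_num)
    _ = _ := by ring

include hp in
theorem pow_eq_exp (n : ℕ) : (1 / (p : ℝ)) ^ n = Real.exp (-(Real.log p * n)) := by
  have hp0 : (0 : ℝ) < p := by exact_mod_cast (by omega : 0 < p)
  rw [one_div, inv_pow, Real.exp_neg, mul_comm, ← Real.log_pow, Real.exp_log (pow_pos hp0 _)]

include hp in
theorem cl_atom (m : ℕ) : Real.exp (-(Real.log p * (m : ℝ) ^ 2) - Real.log 32) ≤ (clLaw p).real {m} := by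
  rw [clLaw_eq, law_real (nw_nonneg hp) (nw_summable hp)]
  have e : ∑' r, nw p r * ({m} : Set ℕ).indicator (fun _ => (1 : ℝ)) r = nw p m := by
    rw [tsum_eq_single m]
    · simp
    · intro r hr
      simp [hr]
  rw [e, Real.exp_sub, Real.exp_log (by norm_num)]
  have h := nw_ge hp m
  rw [pow_eq_exp hp] at h
  push_cast at h
  exact h

include hp in
theorem cl_tail {y : ℝ} (hy : 0 ≤ y) :
    (clLaw p).real {r | y ≤ r} ≤ 32 * Real.exp (-(Real.log p * y ^ 2)) := by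
  have hp0 : (0 : ℝ) < p := by exact_mod_cast (by omega : 0 < p)
  have hp1 : (1 : ℝ) ≤ p := by exact_mod_cast (by omega : 1 ≤ p)
  set q : ℝ := 1 / (p : ℝ) with hqd
  have hq0 : 0 < q := q_pos hp
  have hq1 : q ≤ 1 / 2 := q_le hp
  rw [clLaw_eq, law_real (nw_nonneg hp) (nw_summable hp)]
  set m := ⌈y⌉₊ with hm
  have hi : ∀ r, 0 ≤ ({r | y ≤ r} : Set ℕ).indicator (fun _ => (1 : ℝ)) r := fun r =>
    Set.indicator_nonneg (fun _ _ => zero_le_one) r
  have hi1 : ∀ r, ({r | y ≤ r} : Set ℕ).indicator (fun _ => (1 : ℝ)) r ≤ 1 := fun r =>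
    (Set.indicator_le_self' (fun _ _ => zero_le_one) r).trans le_rfl
  have hs : Summable fun r => nw p r * ({r | y ≤ r} : Set ℕ).indicator (fun _ => (1 : ℝ)) r :=
    Summable.of_nonneg_of_le (fun r => mul_nonneg (nw_nonneg hp r) (hi r))
      (fun r => mul_le_of_le_one_right (nw_nonneg hp r) (hi1 r)) (nw_summable hp)
  rw [← hs.sum_add_tsum_nat_add m]
  have h0 : ∑ i ∈ Finset.range m, nw p i * ({r | y ≤ r} : Set ℕ).indicator (fun _ => (1 : ℝ)) i = 0 := by
    refine Finset.sum_eq_zero fun i hi => ?_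
    rw [Finset.mem_range, hm, Nat.lt_ceil] at hi
    rw [Set.indicator_of_notMem (by simpa using hi), mul_zero]
  rw [h0, zero_add]
  have hg := (summable_geometric_of_lt_one hq0.le (by linarith : q < 1))
  have hle : ∀ j, nw p (j + m) * ({r | y ≤ r} : Set ℕ).indicator (fun _ => (1 : ℝ)) (j + m) ≤
      16 * q ^ (m ^ 2) * q ^ j := by
    intro j
    refine (mul_le_of_le_one_right (nw_nonneg hp _) (hi1 _)).trans ((nw_le hp _).trans ?_)
    rw [mul_assoc, ← pow_add]
    refine mul_le_mul_of_nonneg_left (pow_le_pow_of_le_one hq0.le (by linarith) ?_) (by norm_num)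
    nlinarith [Nat.zero_le (j * m), Nat.le_mul_self j]
  calc ∑' j, nw p (j + m) * ({r | y ≤ r} : Set ℕ).indicator (fun _ => (1 : ℝ)) (j + m)
      ≤ ∑' j, 16 * q ^ (m ^ 2) * q ^ j :=
        ((summable_nat_add_iff m).2 hs).tsum_le_tsum hle (hg.mul_left _)
    _ = 16 * q ^ (m ^ 2) * (1 - q)⁻¹ := by rw [tsum_mul_left, tsum_geometric_of_lt_one hq0.le (by linarith)]
    _ ≤ 16 * q ^ (m ^ 2) * 2 := by
        refine mul_le_mul_of_nonneg_left ?_ (by positivity)
        rw [inv_le_comm₀ (by linarith) (by norm_num)]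
        linarith
    _ = 32 * Real.exp (-(Real.log p * (m : ℝ) ^ 2)) := by
        rw [hqd, pow_eq_exp hp]
        push_cast
        ring
    _ ≤ 32 * Real.exp (-(Real.log p * y ^ 2)) := by
        refine mul_le_mul_of_nonneg_left (Real.exp_le_exp.2 (neg_le_neg ?_)) (by norm_num)
        have hym : y ≤ m := Nat.le_ceil y
        exact mul_le_mul_of_nonneg_left (pow_le_pow_left₀ hy hym 2) (Real.log_nonneg hp1)

end

end Pool.Agent.Q197.ML
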